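import Pool.Agent.Lib.DM.E.R1

/-!
# Theorem DM: part B over `Om`, second framing: `S_XOm` (author helper28)
-/

set_option autoImplicit false

open scoped Pointwise Topology nonZeroDivisors
open Filter

noncomputable section

namespace Pool.Agent.DM

open Pool.Agent.MuZ Pool.Agent.FW NumberField IsDedekindDomain
open Pool.Agent.DI (io ofC io_inj exists_io io_ofC ofC_io VP MP UP TP ex)
open Pool.Agent.DN

variable {n t : ℕ}

theorem g30_sp [SqN n t] {α : OO n t} (hα : α ≠ 0) (hc : Cop α 30) : G30 (sp α) :=
  ⟨Eb.ne_sp hα, pri_sp (by norm_num) hc⟩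

theorem g30_of [SqN n t] {a : Ideal (OO n t)} (ha : a ≠ ⊥) (hc : PrI a 30) : G30 a := ⟨ha, hc⟩

theorem sys_tor [SqN n t] {a b : Ideal (OO n t)} (ha : a ≠ ⊥) (hb : b ≠ ⊥) {R : Finset ℂ}
    (hR : IsSys a b R) {u : ℂ} (hu : u ∈ R) : Tor n t u :=
  tor_lam (Eb.ne_mul ha hb) (hR.mem u hu)

/-- **`S_XOm`.** -/
theorem tXOm (h : DS.S_R1) : S_XOm := by
  intro n t _ b hb
  obtain ⟨hc, -, hx, hr⟩ := (tR1 h n t).1 b hb
  obtain ⟨B, i1, i2, i3, -, i5⟩ := aBC n t b hb.ne hb.p2
  have hxx := fun z hz => (hx z hz).1
  have hvv := fun z hz => (hx z hz).2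
  have tL : ∀ z ∈ Lam b, Tor n t z := fun z hz => tor_lam hb.ne hz
  have cng : ∀ z z' : ℂ, z - z' ∈ Lam b → xO b z = xO b z' ∧ vO b z = vO b z' := by
    intro z z' hz
    obtain ⟨h1, h2⟩ := B.per z' (z - z') hz
    rw [add_sub_cancel] at h1 h2
    unfold xO vO
    rw [h1, h2]
    exact ⟨rfl, rfl⟩
  have t2 : ∀ z : ℂ, Tor n t z → Tor n t (2 * z) := fun z hz => by
    rw [two_mul]
    exact tor_add hz hz
  exact
    { per := fun z l hl => cng _ _ (by rwa [add_sub_cancel_left])
      cng := cng
      neg := fun z hz => by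
        constructor <;> apply io_inj
        · rw [hxx _ (tor_neg hz), hxx _ hz, (B.neg z).1]
        · rw [map_neg, hvv _ (tor_neg hz), hvv _ hz, (B.neg z).2]
      cng' := fun z z' hz => by
        rcases hz with hz | hz
        · exact (cng z z' hz).1
        · rw [(cng z (-z') (by rwa [sub_neg_eq_add])).1]
          unfold xO
          rw [(B.neg z').1]
      lat := fun z hz => by
        constructor <;> apply io_inj
        · rw [map_mul, map_sub, map_mul, map_one, hxx _ (tL z hz), hc, map_ofNat, map_ofNat]
          exact (B.lat z hz).1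
        · rw [map_zero, hvv _ (tL z hz), (B.lat z hz).2]
      inj := fun z z' hz hz' hl hl' e => by
        refine (B.inj z z' hl hl').1 ?_
        rw [← hxx z hz, ← hxx z' hz', e]
      c0 := fun e => B.c0 (by rw [← hc, e, map_zero])
      dsc := fun e => B.dsc (by
        have := congrArg io e
        rw [map_mul, map_ofNat, map_one, hc] at this
        exact this)
      x2 := by
        apply io_inj
        rw [hxx _ tor_half, map_zero, B.x2]
      v2 := by
        apply io_inj
        rw [hvv _ tor_half, map_zero, B.w2]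
      x4 := rfl
      v4 := by
        apply io_inj
        rw [hvv _ tor_quar, hc, B.w4]
      crv := fun z hz hl => by
        apply io_inj
        simp only [map_add, map_sub, map_mul, map_pow, map_one, map_ofNat]
        rw [hxx z hz, hvv z hz, hc]
        exact B.crv z hl
      two := fun z hz hl => by
        rw [← B.two z hl, ← hvv z hz, map_eq_zero]
      kad := fun z z' hz hz' h1 h2 h3 h4 => by
        apply io_inj
        simp only [map_add, map_sub, map_mul, map_pow, map_one, map_ofNat]
        rw [hxx z hz, hxx z' hz', hxx _ (tor_add hz hz'), hxx _ (tor_sub hz hz'), hc]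
        exact B.kad z z' h1 h2 h3 h4
      kml := fun z z' hz hz' h1 h2 h3 h4 => by
        apply io_inj
        simp only [map_sub, map_mul, map_pow]
        rw [hxx z hz, hxx z' hz', hxx _ (tor_add hz hz'), hxx _ (tor_sub hz hz'), hc]
        exact B.kml z z' h1 h2 h3 h4
      ksb := fun z z' hz hz' h1 h2 h3 h4 => by
        apply io_inj
        simp only [map_sub, map_mul, map_pow, map_neg]
        rw [hxx z hz, hxx z' hz', hxx _ (tor_add hz hz'), hxx _ (tor_sub hz hz'), hvv z hz, hvv z' hz']
        exact B.ksb z z' h1 h2 h3 h4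
      dup := fun z hz h1 => by
        apply io_inj
        simp only [map_sub, map_mul, map_pow]
        rw [hxx z hz, hxx _ (t2 z hz), hvv z hz, hc]
        exact B.dup z h1
      th := fun z hz h1 h2 => by
        apply io_inj
        simp only [map_mul, map_pow]
        rw [hxx z hz, hxx _ (tor_add hz tor_half), hc]
        exact B.th z h1 h2
      hom := fun α hα h4 h30 => by
        obtain ⟨g1, g2, g3⟩ := i2 α hα h4
        refine ⟨?_, ?_, fun z => ⟨?_, ?_⟩⟩
        · unfold cO
          rw [g2]
        · apply io_inj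
          rw [(hr _ ((g30_sp hα h30).mul hb)).1, io_toO, g1, mul_div_cancel_right₀ _ B.fr0]
        · unfold xO
          rw [(g3 z).1]
        · unfold vO
          rw [(g3 z).2]
      hmg := fun α hα h30 z hz => by
        have hG := (g30_sp hα h30).mul hb
        obtain ⟨-, -, hx', -⟩ := (tR1 h n t).1 _ hG
        obtain ⟨g1, g2⟩ := i3 α hα (cop_dvd h30 ⟨15, rfl⟩) z
        have f0 := B.fr0
        constructor <;> apply io_inj
        · simp only [map_mul, map_pow, map_sub]
          rw [(hr _ hG).1, io_toO, (hx' z hz).1, hxx _ (tor_mul α hz), hxx _ (tor_mul α tor_half),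
            div_pow, div_mul_eq_mul_div, g1, div_eq_iff (pow_ne_zero 2 f0)]
          ring
        · simp only [map_mul, map_pow]
          rw [(hr _ hG).1, io_toO, (hx' z hz).2, hvv _ (tor_mul α hz),
            div_pow, div_mul_eq_mul_div, g2, div_eq_iff (pow_ne_zero 3 f0)]
          ring
      rne := fun c hc => (hr c hc).2
      rr := fun c d hc hd => by
        apply io_inj
        obtain ⟨-, -, -, hr'⟩ := (tR1 h n t).1 c hc
        rw [map_mul, (hr c hc).1, (hr d hd).1, (hr' d hd).1]
        have f0 := B.fr0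
        have f1 := (tBC hc.ne hc.p2).fr0
        field_simp
      sum := fun a ha ha30 R hR => by
        have hG : G30 (a * b) := G30.mul ⟨ha, ha30⟩ hb
        obtain ⟨-, -, hx', -⟩ := (tR1 h n t).1 _ hG
        obtain ⟨g1, g2⟩ := i1 a ha (Eb.pri_dvd ha30 ⟨15, rfl⟩) R hR
        have f0 := B.fr0
        constructor
        · intro z z' hz hz' hl hl'
          apply io_inj
          simp only [map_mul, map_pow, map_sub, map_sum]
          rw [(hr _ hG).1, (hx' z hz).1, (hx' z' hz').1, div_pow, div_mul_eq_mul_div, g1 z z' hl hl',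
            mul_div_cancel_left₀ _ (pow_ne_zero 2 f0)]
          refine Finset.sum_congr rfl fun u hu => ?_
          rw [hxx _ (tor_add hz (sys_tor ha hb.ne hR hu)), hxx _ (tor_add hz' (sys_tor ha hb.ne hR hu))]
        · intro z hz hl
          apply io_inj
          simp only [map_mul, map_pow, map_sum]
          rw [(hr _ hG).1, (hx' z hz).2, div_pow, div_mul_eq_mul_div, g2 z hl,
            mul_div_cancel_left₀ _ (pow_ne_zero 3 f0)]
          refine Finset.sum_congr rfl fun u hu => ?_
          rw [hvv _ (tor_add hz (sys_tor ha hb.ne hR hu))]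
      gg := fun m hm hm30 z hz hl => by
        obtain ⟨hS, -⟩ := aB14 n t m b hm hb.ne (Eb.pri_dvd hm30 ⟨15, rfl⟩)
        apply io_inj
        rw [((tR1 h n t).2 m b hm hb hm30 z hz).1 hl, i5 m hm hb.g15.cop hm30 z hl, map_sum]
        refine Finset.sum_congr rfl fun u hu => ?_
        rw [map_div₀, map_sub, hvv z hz, hxx z hz, hxx u (tor_lam (Eb.ne_mul hm hb.ne) (hS.mem u hu).1)] }

end Pool.Agent.DM
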