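import Pool.Agent.Lib.DM.E.BC

/-!
# Theorem DM: algebraicity (`S_R1`), comparison of the framings (`S_Cv`), part B over `Om` (`S_XOm`) (author helper28)
-/

set_option autoImplicit false

open scoped Pointwise Topology nonZeroDivisors
open Filter

noncomputable section

namespace Pool.Agent.DM

open Pool.Agent.MuZ Pool.Agent.FW NumberField IsDedekindDomain
open Pool.Agent.DI (io ofC io_inj exists_io io_ofC ofC_io VP MP UP TP ex)
open Pool.Agent.DN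

variable {n t : ℕ}

theorem G30.g15 {b : Ideal (OO n t)} (h : G30 b) : G15 b := ⟨h.ne, Eb.pri_dvd h.cop ⟨2, rfl⟩⟩

theorem G30.p2 {b : Ideal (OO n t)} (h : G30 b) : PrI b 2 := Eb.pri_dvd h.cop ⟨15, rfl⟩

theorem G30.mul [SqN n t] {a b : Ideal (OO n t)} (ha : G30 a) (hb : G30 b) : G30 (a * b) :=
  ⟨Eb.ne_mul ha.ne hb.ne, Eb.pri_mul ha.cop hb.cop⟩

theorem g30_top [SqN n t] : G30 (⊤ : Ideal (OO n t)) := ⟨Eb.ne_top, Eb.pri_top 30⟩

theorem ofC_of {x : ℂ} {y : Om} (h : io y = x) : ofC x = y := by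
  rw [← h, ofC_io]

theorem io_of {x : ℂ} {y : Om} (h : io y = x) : io (ofC x) = x := by
  rw [ofC_of h, h]

theorem tor_inv [SqN n t] (j : ℕ) (hj : 0 < j) : Tor n t (1 / (j : ℂ)) :=
  ⟨1, j, hj, by rw [toC_one]⟩

theorem tor_half [SqN n t] : Tor n t (1 / 2 : ℂ) := by
  have := tor_inv (n := n) (t := t) 2 two_pos
  rwa [Nat.cast_ofNat] at this

theorem tor_third [SqN n t] : Tor n t (1 / 3 : ℂ) := by
  have := tor_inv (n := n) (t := t) 3 three_pos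
  rwa [Nat.cast_ofNat] at this

theorem tor_quar [SqN n t] : Tor n t (1 / 4 : ℂ) := by
  have := tor_inv (n := n) (t := t) 4 four_pos
  rwa [Nat.cast_ofNat] at this

/-- Complex identities between the two framings. -/
theorem cv [SqN n t] {b : Ideal (OO n t)} (hb : G30 b) :
    DN.fr b ≠ 0 ∧ fr b ≠ 0 ∧
    DN.XC b (1 / 4) - DN.XC b (1 / 2) ≠ 0 ∧ DN.WC b (1 / 4) ≠ 0 ∧
    fr b / DN.fr b = DN.WC b (1 / 4) / (DN.XC b (1 / 4) - DN.XC b (1 / 2)) ∧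
    (∀ z : ℂ, XC b z = (DN.XC b z - DN.XC b (1 / 2)) / (fr b / DN.fr b) ^ 2) ∧
    (∀ z : ℂ, WC b z = DN.WC b z / (fr b / DN.fr b) ^ 3) ∧
    (∀ z : ℂ, DN.XC b z = (fr b / DN.fr b) ^ 2 * (XC b z - XC b (1 / 3))) ∧
    (∀ z : ℂ, DN.WC b z = (fr b / DN.fr b) ^ 3 * WC b z) ∧
    (∀ z z' : ℂ, DN.XC b z - DN.XC b z' = (wpC b z - wpC b z') / DN.fr b ^ 2) ∧
    ∀ z z' : ℂ, XC b z - XC b z' = (wpC b z - wpC b z') / fr b ^ 2 := by
  have B := tBC hb.ne hb.p2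
  have hf : DN.fr b ≠ 0 := ((aB1 n t b hb.ne).2.2.2.2.2 hb.g15.cop).1
  have hg := B.fr0
  have e1 : ∀ z z' : ℂ, DN.XC b z - DN.XC b z' = (wpC b z - wpC b z') / DN.fr b ^ 2 := by
    intro z z'
    unfold DN.XC
    ring
  have e2 : ∀ z z' : ℂ, XC b z - XC b z' = (wpC b z - wpC b z') / fr b ^ 2 := by
    intro z z'
    unfold XC
    ring
  have h42 := sub_ne_zero.2 B.w42
  refine ⟨hf, hg, ?_, ?_, ?_, fun z => ?_, fun z => ?_, fun z => ?_, fun z => ?_, e1, e2⟩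
  · rw [e1]
    exact div_ne_zero h42 (pow_ne_zero 2 hf)
  · unfold DN.WC
    exact div_ne_zero B.wd4 (pow_ne_zero 3 hf)
  · rw [e1, B.frd]
    unfold DN.WC
    field_simp
  · rw [e1]
    unfold XC
    field_simp
  · unfold WC DN.WC
    field_simp
  · rw [e2]
    unfold DN.XC
    field_simp
  · unfold WC DN.WC
    field_simp

/-- Theta. -/
theorem cvT [SqN n t] {b : Ideal (OO n t)} (hb : G30 b) (m : Ideal (OO n t)) (z : ℂ) :
    ThC m b z = ∏ u ∈ hs m b, (DN.XC b u - DN.XC b (2 * u)) / (DN.XC b z - DN.XC b u) ∧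
    ThC m b z = ∏ u ∈ hs m b, (XC b u - XC b (2 * u)) / (XC b z - XC b u) := by
  obtain ⟨hf, hg, -, -, -, -, -, -, -, e1, e2⟩ := cv hb
  unfold ThC
  constructor
  · refine Finset.prod_congr rfl fun u _ => ?_
    rw [e1, e1, div_div_div_cancel_right₀ (pow_ne_zero 2 hf)]
  · refine Finset.prod_congr rfl fun u _ => ?_
    rw [e2, e2, div_div_div_cancel_right₀ (pow_ne_zero 2 hg)]

/-- **`S_R1` and `S_Cv`.** -/
theorem tRC (h : DS.S_R1) (n t : ℕ) [SqN n t] (b : Ideal (OO n t)) (hb : G30 b) :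
    (io (cO b) = cC b ∧ io (sO b) = fr b / DN.fr b ∧
      (∀ z : ℂ, Tor n t z → io (xO b z) = XC b z ∧ io (vO b z) = WC b z) ∧
      (∀ b' : Ideal (OO n t), G30 b' → io (rO b b') = fr b' / fr b ∧ rO b b' ≠ 0) ∧
      ∀ m : Ideal (OO n t), m ≠ ⊥ → PrI m 30 → ∀ z : ℂ, Tor n t z →
        (z ∉ Lam (m * b) → io (gO m b z) = gC m b z) ∧ io (Theta m b z) = ThC m b z) ∧
    (sO b ≠ 0 ∧
      DN.xO b (1 / 4) ≠ DN.xO b (1 / 2) ∧ DN.vO b (1 / 4) ≠ 0 ∧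
      sO b = DN.vO b (1 / 4) / (DN.xO b (1 / 4) - DN.xO b (1 / 2)) ∧
      (∀ z : ℂ, Tor n t z → xO b z = (DN.xO b z - DN.xO b (1 / 2)) / sO b ^ 2 ∧
        vO b z = DN.vO b z / sO b ^ 3) ∧
      (∀ z : ℂ, Tor n t z → DN.xO b z = sO b ^ 2 * (xO b z - xO b (1 / 3)) ∧
        DN.vO b z = sO b ^ 3 * vO b z) ∧
      (∀ b' : Ideal (OO n t), G30 b' → rO b b' = DN.rO b b' * sO b' / sO b) ∧
      ∀ m : Ideal (OO n t), m ≠ ⊥ → PrI m 30 →
        (∀ z : ℂ, Tor n t z → z ∉ Lam (m * b) → gO m b z = DN.gO m b z / sO b) ∧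
        (∀ z : ℂ, Tor n t z → Theta m b z =
          ∏ u ∈ hs m b, (DN.xO b u - DN.xO b (2 * u)) / (DN.xO b z - DN.xO b u)) ∧
        ∀ z : ℂ, Tor n t z → Theta m b z =
          ∏ u ∈ hs m b, (xO b u - xO b (2 * u)) / (xO b z - xO b u)) := by
  obtain ⟨r1, r2⟩ := h.1 n t
  have hio : ∀ c : Ideal (OO n t), G30 c → io (sO c) = fr c / DN.fr c ∧
      sO c = DN.vO c (1 / 4) / (DN.xO c (1 / 4) - DN.xO c (1 / 2)) ∧ sO c ≠ 0 := by
    intro c hc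
    obtain ⟨-, -, q3, -⟩ := r1 c hc.g15
    obtain ⟨hf, hg, k1, k2, k3, -⟩ := cv hc
    have hy : io (DN.vO c (1 / 4) / (DN.xO c (1 / 4) - DN.xO c (1 / 2))) = fr c / DN.fr c := by
      rw [map_div₀, map_sub, (q3 _ tor_quar).1, (q3 _ tor_quar).2, (q3 _ tor_half).1, k3]
    refine ⟨io_of hy, ofC_of hy, ?_⟩
    intro h0
    have h5 : io (sO c) = fr c / DN.fr c := io_of hy
    rw [h0, map_zero] at h5
    exact div_ne_zero hg hf h5.symm
  obtain ⟨-, -, q3, q4⟩ := r1 b hb.g15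
  obtain ⟨hf, hg, k1, k2, k3, k4, k5, k6, k7, k8, k9⟩ := cv hb
  obtain ⟨s1, s2, s3⟩ := hio b hb
  have hx : ∀ z : ℂ, Tor n t z → io ((DN.xO b z - DN.xO b (1 / 2)) / sO b ^ 2) = XC b z := by
    intro z hz
    rw [map_div₀, map_sub, map_pow, s1, (q3 z hz).1, (q3 _ tor_half).1, k4 z]
  have hv : ∀ z : ℂ, Tor n t z → io (DN.vO b z / sO b ^ 3) = WC b z := by
    intro z hz
    rw [map_div₀, map_pow, s1, (q3 z hz).2, k5 z]
  have hxi : ∀ z : ℂ, Tor n t z → io (xO b z) = XC b z ∧ io (vO b z) = WC b z :=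
    fun z hz => ⟨io_of (hx z hz), io_of (hv z hz)⟩
  have hr : ∀ b' : Ideal (OO n t), G30 b' → io (DN.rO b b' * sO b' / sO b) = fr b' / fr b := by
    intro b' hb'
    obtain ⟨hf', hg', -⟩ := cv hb'
    rw [map_div₀, map_mul, s1, (hio b' hb').1, (q4 b' hb'.g15).1]
    field_simp
  have hgg : ∀ m : Ideal (OO n t), m ≠ ⊥ → PrI m 30 → ∀ z : ℂ, Tor n t z → z ∉ Lam (m * b) →
      io (DN.gO m b z / sO b) = gC m b z := by
    intro m hm hm30 z hz hz'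
    rw [map_div₀, s1, r2 m b hm hb.g15 (Eb.pri_dvd hm30 ⟨15, rfl⟩) (Eb.pri_dvd hm30 ⟨2, rfl⟩) z hz hz']
    unfold gC DN.gC
    field_simp
  have hu : ∀ m : Ideal (OO n t), m ≠ ⊥ → PrI m 30 → ∀ u ∈ hs m b, Tor n t u ∧ Tor n t (2 * u) := by
    intro m hm hm30 u hu
    obtain ⟨hS, -⟩ := aB14 n t m b hm hb.ne (Eb.pri_dvd hm30 ⟨15, rfl⟩)
    have h1 : Tor n t u := tor_lam (Eb.ne_mul hm hb.ne) (hS.mem u hu).1
    refine ⟨h1, ?_⟩
    rw [two_mul]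
    exact tor_add h1 h1
  have hT : ∀ m : Ideal (OO n t), m ≠ ⊥ → PrI m 30 → ∀ z : ℂ, Tor n t z →
      io (∏ u ∈ hs m b, (DN.xO b u - DN.xO b (2 * u)) / (DN.xO b z - DN.xO b u)) = ThC m b z := by
    intro m hm hm30 z hz
    rw [map_prod, (cvT hb m z).1]
    refine Finset.prod_congr rfl fun u hu' => ?_
    obtain ⟨t1, t2⟩ := hu m hm hm30 u hu'
    rw [map_div₀, map_sub, map_sub, (q3 u t1).1, (q3 _ t2).1, (q3 z hz).1]
  have hT' : ∀ m : Ideal (OO n t), m ≠ ⊥ → PrI m 30 → ∀ z : ℂ, Tor n t z →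
      io (∏ u ∈ hs m b, (xO b u - xO b (2 * u)) / (xO b z - xO b u)) = ThC m b z := by
    intro m hm hm30 z hz
    rw [map_prod, (cvT hb m z).2]
    refine Finset.prod_congr rfl fun u hu' => ?_
    obtain ⟨t1, t2⟩ := hu m hm hm30 u hu'
    rw [map_div₀, map_sub, map_sub, (hxi u t1).1, (hxi _ t2).1, (hxi z hz).1]
  refine ⟨⟨(hxi _ tor_quar).1, s1, hxi, fun b' hb' => ⟨io_of (hr b' hb'), ?_⟩,
    fun m hm hm30 z hz => ⟨fun hz' => io_of (hgg m hm hm30 z hz hz'), io_of (hT m hm hm30 z hz)⟩⟩,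
    s3, ?_, ?_, s2, fun z hz => ⟨ofC_of (hx z hz), ofC_of (hv z hz)⟩, ?_,
    fun b' hb' => ofC_of (hr b' hb'), fun m hm hm30 =>
      ⟨fun z hz hz' => ofC_of (hgg m hm hm30 z hz hz'), fun z hz => ofC_of (hT m hm hm30 z hz),
        fun z hz => ofC_of (hT' m hm hm30 z hz)⟩⟩
  · intro h0
    have h5 : io (rO b b') = fr b' / fr b := io_of (hr b' hb')
    rw [h0, map_zero] at h5
    exact div_ne_zero (cv hb').2.1 hg h5.symm
  · intro h0
    apply k1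
    rw [← (q3 _ tor_quar).1, ← (q3 _ tor_half).1, h0, sub_self]
  · intro h0
    apply k2
    rw [← (q3 _ tor_quar).2, h0, map_zero]
  · intro z hz
    constructor
    · apply io_inj
      rw [map_mul, map_pow, map_sub, s1, (hxi z hz).1, (hxi _ tor_third).1, (q3 z hz).1, k6 z]
    · apply io_inj
      rw [map_mul, map_pow, s1, (hxi z hz).2, (q3 z hz).2, k7 z]

theorem tR1 (h : DS.S_R1) : S_R1 := fun n t _ =>
  ⟨fun b hb => by
    obtain ⟨⟨h1, h2, h3, h4, -⟩, -⟩ := tRC h n t b hb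
    exact ⟨h1, h2, h3, h4⟩,
  fun m b hm hb hm30 z hz => by
    obtain ⟨⟨-, -, -, -, h5⟩, -⟩ := tRC h n t b hb
    exact h5 m hm hm30 z hz⟩

theorem tCv (h : DS.S_R1) : S_Cv := fun n t _ b hb => (tRC h n t b hb).2

end Pool.Agent.DM
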