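import Pool.Agent.Lib.DM.E.HG

/-!
# Theorem DM: normality of the fields (`S_E9`), tame ramification (`S_Tam`) (author helper28)
-/

set_option autoImplicit false

open scoped Pointwise nonZeroDivisors

noncomputable section

namespace Pool.Agent.DM

open Pool.Agent.MuZ Pool.Agent.FW NumberField IsDedekindDomain
open Pool.Agent.DI (io ofC io_inj exists_io io_ofC ofC_io VP MP UP TP ex)
open Pool.Agent.DN

variable {n t : ℕ}

/-- **`S_E9`.** -/
theorem tE9 (hC : DS.S_Cj) (h8 : DS.S_E8) : S_E9 := by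
  intro n t _ f hf0 h5
  obtain ⟨c, -, hc⟩ := hC
  obtain ⟨-, -, hst⟩ := hc n t
  obtain ⟨a1, a2, b1, b2, b3, b4⟩ := aHG n t f hf0
  have h3f : 0 < 3 * f := by omega
  have h15' : 15 ∣ 3 * f := by
    obtain ⟨k, rfl⟩ := h5
    exact ⟨k, by ring⟩
  have hfN : ∀ N : ℕ, 0 < f * 3 ^ N := fun N => Nat.mul_pos hf0 (by positivity)
  have hfN' : ∀ N : ℕ, 1 ≤ N → 15 ∣ f * 3 ^ N := fun N hN => by
    refine h15'.trans ?_
    rw [mul_comm 3 f]
    exact mul_dvd_mul_left f (dvd_pow_self 3 (by omega))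
  refine ⟨hst (3 * f) _ h3f h15' b1.ray b1.cj,
    fun N τ hN => hst _ _ (hfN N) (hfN' N hN) (b2 N hN).ray (b2 N hN).cj τ,
    hst (3 * f) _ h3f h15' a1.ray a1.cj,
    fun N τ hN => hst _ _ (hfN N) (hfN' N hN) (a2 N hN).ray (a2 N hN).cj τ, ?_, ?_, ⟨?_, ?_⟩,
    fun N hN => ⟨?_, ?_⟩⟩
  · intro x hx τ hτ a h1 h2
    exact hx τ hτ a h1 (b3 a h2)
  · intro N hN x hx τ hτ a h1 h2
    exact hx τ hτ a h1 (b4 N a hN h2)
  · exact (h8 n t (3 * f) _ h3f h15' b1.top b1.cop b1.ray b1.mul).1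
  · exact (h8 n t (3 * f) _ h3f h15' a1.top a1.cop a1.ray a1.mul).2.1
  · exact (h8 n t _ _ (hfN N) (hfN' N hN) (b2 N hN).top (b2 N hN).cop (b2 N hN).ray (b2 N hN).mul).1
  · exact (h8 n t _ _ (hfN N) (hfN' N hN) (a2 N hN).top (a2 N hN).cop (a2 N hN).ray (a2 N hN).mul).2.1

/-- `n - t ^ 2 = 1` modulo `3` in the inert case. -/
theorem nt3 [Ine3 n t] : (n : ZMod 3) - (t : ZMod 3) ^ 2 = 1 := by
  have h1 : Dk n t % 3 = 1 := Ine3.one
  have h2 := Dk_cast (n := n) (t := t)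
  have h3 : ((Dk n t : ℕ) : ZMod 3) = 1 := by
    rw [← Nat.mod_add_div (Dk n t) 3, h1]
    push_cast
    have e : (3 : ZMod 3) = 0 := rfl
    rw [e]
    ring
  have h4 := congrArg (Int.cast : ℤ → ZMod 3) h2
  push_cast at h4
  rw [h3] at h4
  have e : (4 : ZMod 3) = 1 := rfl
  rw [e, one_mul] at h4
  exact h4.symm

/-- The Frobenius map modulo `3` (inert case): `v ^ 3 = cjO v` modulo `3`. -/
theorem fro3 [Ine3 n t] (v : OO n t) : ((3 : ℕ) : OO n t) ∣ v ^ 3 - cjO v := by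
  have ht := (inferInstance : SqN n t).out
  have hnt := nt3 (n := n) (t := t)
  have ht2 : (t : ZMod 3) = 0 ∨ (t : ZMod 3) = 1 := by
    rcases ht with ⟨h, -⟩ | ⟨h, -⟩
    · right
      rw [h]
      exact Nat.cast_one
    · left
      rw [h]
      exact Nat.cast_zero
  rw [nat_dvd_iff]
  have e3 : v ^ 3 = v * (v * v) := by ring
  constructor
  · rw [← ZMod.intCast_zmod_eq_zero_iff_dvd, QuadraticAlgebra.re_sub, e3, re_mul, re_mul, im_mul]
    simp only [cjO]
    push_cast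
    generalize (v.re : ZMod 3) = x
    generalize (v.im : ZMod 3) = y
    revert hnt ht2
    generalize (n : ZMod 3) = a
    generalize (t : ZMod 3) = b
    revert x y a b
    decide
  · rw [← ZMod.intCast_zmod_eq_zero_iff_dvd, QuadraticAlgebra.im_sub, e3, im_mul, re_mul, im_mul]
    simp only [cjO]
    push_cast
    generalize (v.re : ZMod 3) = x
    generalize (v.im : ZMod 3) = y
    revert hnt ht2
    generalize (n : ZMod 3) = a
    generalize (t : ZMod 3) = b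
    revert x y a b
    decide

/-- `v ^ 8 = 1` modulo `3` for `v` prime to `3` (inert case). -/
theorem pow8 [Ine3 n t] {v : OO n t} (h : Cop v 3) : ((3 : ℕ) : OO n t) ∣ v ^ 8 - 1 := by
  obtain ⟨c, hc⟩ := fro3 v
  have h4 : ((3 : ℕ) : OO n t) ∣ v ^ 4 - (Nm v : OO n t) := by
    refine ⟨v * c, ?_⟩
    rw [← mul_cjO]
    linear_combination v * hc
  have hN : (3 : ℤ) ∣ Nm v ^ 2 - 1 := by
    unfold Cop at h
    push_cast at h
    have h1 : ¬ (3 : ℤ) ∣ Nm v := by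
      intro h2
      have h5 := h.isUnit_of_dvd' h2 dvd_rfl
      rw [Int.isUnit_iff] at h5
      omega
    have h6 : Nm v % 3 = 1 ∨ Nm v % 3 = 2 := by omega
    have e : Nm v ^ 2 - 1 = (Nm v - 1) * (Nm v + 1) := by ring
    rw [e]
    rcases h6 with h6 | h6
    · exact Dvd.dvd.mul_right (by omega) _
    · exact Dvd.dvd.mul_left (by omega) _
  have hN' : ((3 : ℕ) : OO n t) ∣ (Nm v : OO n t) ^ 2 - 1 := by
    obtain ⟨d, hd⟩ := hN
    refine ⟨(d : OO n t), ?_⟩
    have := congrArg (Int.cast : ℤ → OO n t) hd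
    push_cast at this
    push_cast
    exact this
  have e : v ^ 8 - 1 = (v ^ 4 - (Nm v : OO n t)) * (v ^ 4 + (Nm v : OO n t)) +
      ((Nm v : OO n t) ^ 2 - 1) := by ring
  rw [e]
  exact dvd_add (h4.mul_right _) hN'

/-- **`S_Tam`.** -/
theorem tTam (h1 : DS.S_E1) (h4 : S_E4a) : S_Tam := by
  intro n t _ f hf0 h5 h3 P hP τ hτ x hx
  obtain ⟨hG, h4'⟩ := h4 n t P hP τ hτ
  have h3f : 0 < 3 * f := by omega
  have h15' : 15 ∣ 3 * f := by
    obtain ⟨k, rfl⟩ := h5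
    exact ⟨k, by ring⟩
  obtain ⟨a, ha⟩ := (h1 n t (3 * f) h3f h15').1 τ hG
  obtain ⟨α, α', hα0, hα'0, hcα, -, hd, he⟩ :=
    h4' (3 * f) f a h3f h15' (dvd_mul_left f 3) h3 ha
  rw [Ideal.mul_top] at he
  have hm : α' ∈ sp α * a := by
    rw [he]
    exact Ideal.mem_span_singleton_self α'
  obtain ⟨y, -, hy⟩ := Ideal.mem_span_singleton_mul.1 hm
  have hay : a = sp y := by
    rw [← hy] at he
    have h5 : sp α * a = sp α * sp y := by
      rw [he]
      exact (Ideal.span_singleton_mul_span_singleton α y).symm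
    exact (Ideal.span_singleton_mul_right_inj hα0).1 h5
  have hy0 : y ≠ 0 := by
    rintro rfl
    exact hα'0 (by rw [← hy, mul_zero])
  have hfy : (f : OO n t) ∣ y - 1 := by
    obtain ⟨β, -, hβ⟩ := cop_inv hcα
    have h6 : y - 1 = -β * (α - α') - (α * β - 1) * (y - 1) := by
      rw [← hy]
      ring
    rw [h6]
    exact dvd_sub (hd.mul_left _) (hβ.mul_right _)
  have hfy8 : (f : OO n t) ∣ y ^ 8 - 1 := by
    have h7 := sub_dvd_pow_sub_pow y 1 8
    rw [one_pow] at h7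
    exact hfy.trans h7
  have hcy : Cop y 3 := by
    refine ((aO6 n t).2.2.2.1 3 y (by norm_num)).1 ?_
    rw [← hay]
    exact Eb.pri_dvd (Eb.psi_pri ha) (dvd_mul_right 3 f)
  have h3y8 := pow8 hcy
  have hcop : IsCoprime ((3 : ℕ) : OO n t) (f : OO n t) :=
    (Nat.isCoprime_iff_coprime.2 h3.symm).map (Int.castRingHom (OO n t)) |> fun h => by
      simpa using h
  have h3fy : ((3 * f : ℕ) : OO n t) ∣ y ^ 8 - 1 := by
    push_cast
    push_cast at h3y8 hcop
    exact hcop.mul_dvd h3y8 hfy8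
  have hray : Ray (3 * f) (a ^ 8) (⊤ : Ideal (OO n t)) := by
    have h8 : ((3 * f : ℕ) : OO n t) ∣ 1 - y ^ 8 := by
      rw [← neg_sub]
      exact (dvd_neg).2 h3fy
    refine ⟨1, y ^ 8, one_ne_zero, pow_ne_zero 8 hy0, cop_one _, cop_congr h8 (cop_one _), h8, ?_⟩
    rw [Ideal.mul_top, hay, Ideal.span_singleton_pow, Ideal.span_singleton_mul_span_singleton, one_mul]
  have hpow : ∀ j : ℕ, Psi (τ ^ j) (3 * f) (a ^ j) := by
    intro j
    induction j with
    | zero =>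
      rw [pow_zero, pow_zero, Ideal.one_eq_top]
      exact Eb.psi_top _
    | succ j ih =>
      rw [pow_succ, pow_succ]
      exact Eb.psi_mul ih ha
  have hpsi := (h1 n t (3 * f) h3f h15').2.2.1 (τ ^ 8) _ ⊤ (hpow 8) hray
  exact hx (τ ^ 8) (pow_mem hG 8) ⊤ hpsi (aHG n t f hf0).2.2.1.top

end Pool.Agent.DM
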