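import Pool.Agent.Lib.DM.E.Cj
import Pool.Agent.Lib.DM.E.E9
import Pool.Agent.Lib.DM.B.All
import Pool.Agent.Lib.DS.D.AllD
import Pool.Agent.Lib.DS.E.AllA

/-!
# Theorem DM, parts B, R1, E: assembly (author helper28)

No hypotheses: `zR1`, `zCv`, `zXOm`, `zCj`, `aHG` (and `aB1`, .., `aB11`, `aBC` of `DM/B/All.lean`, `DM/E/BC.lean`). From `DS.S_D1` only: `zE10`,
`zCl`, `zE9`; `zTam` also from `S_E4a`.
-/

set_option autoImplicit false

noncomputable section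

namespace Pool.Agent.DM

/-- Algebraicity. -/
theorem zR1 : S_R1 := tR1 DS.zR1

/-- Comparison with the first framing. -/
theorem zCv : S_Cv := tCv DS.zR1

/-- Part B over `Om`. -/
theorem zXOm : S_XOm := tXOm DS.zR1

/-- Complex conjugation. -/
theorem zCj : S_Cj := tCj DS.zR1

/-- The global theory: `DS.S_E1`. -/
theorem gE1 (h : DS.S_D1) : DS.S_E1 := DS.bE1 DS.zR1 (DS.gqB DS.zGQ) h (DS.zD3 h)

/-- Galois action. -/
theorem zE10 (h : DS.S_D1) : S_E10 :=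
  tE10 DS.zR1 (DS.bE10 DS.zR1 (DS.gqB DS.zGQ) h (DS.zD3 h) DS.zD8)

/-- The functions depend only on the ray class. -/
theorem zCl (h : DS.S_D1) : S_Cl :=
  tCl DS.zR1 (gE1 h) (DS.bE7 DS.zR1 (DS.gqB DS.zGQ) h (DS.zD3 h))
    (DS.bE10 DS.zR1 (DS.gqB DS.zGQ) h (DS.zD3 h) DS.zD8)

/-- The fields are normal over `ℚ`. -/
theorem zE9 (h : DS.S_D1) : S_E9 :=
  tE9 (DS.bCj DS.zR1 (DS.gqB DS.zGQ) h (DS.zD3 h)) (DS.bE8 DS.zR1 (DS.gqB DS.zGQ) h (DS.zD3 h))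

/-- Tame ramification. -/
theorem zTam (h : DS.S_D1) (h4 : S_E4a) : S_Tam := tTam (gE1 h) h4

end Pool.Agent.DM
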