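import Pool.Agent.Lib.DM.E.InB

/-!
# Theorem DM, part E: inertia above `3`: `S_E4n`, `S_E4a` (author helper39)

The class of `a` is trivial (`in_gw`, as in `DS/E/Gwp.lean`); `S_E4n` (`3` does not split), `S_E4a` (`3` is inert).
-/

set_option autoImplicit false

open scoped Pointwise nonZeroDivisors

noncomputable section

namespace Pool.Agent.DM

open Pool.Agent.MuZ Pool.Agent.FW NumberField IsDedekindDomain
open Pool.Agent.DI (io ofC io_inj exists_io io_ofC ofC_io VP MP UP TP ex)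
open Pool.Agent.DN

private theorem Gwp_unit {n t : ℕ} [h : SqN n t] (hn : n ≠ 1) {e : OO n t} (he : Nm e = 1) :
    e = 1 ∨ e = -1 := by
  refine unit_pm ?_ e he
  have h1 := Dk_cast (n := n) (t := t)
  rcases h.out with ⟨ht, h2, -⟩ | ⟨ht, h2, -⟩ <;> subst ht
  · have h3 : 2 ≤ n := by omega
    have h4 : (2 : ℤ) ≤ n := by exact_mod_cast h3
    have h5 : (4 : ℤ) < (Dk n 1 : ℕ) := by
      rw [h1]
      push_cast
      linarith
    exact_mod_cast h5
  · have h3 : 2 ≤ n := by omega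
    have h4 : (2 : ℤ) ≤ n := by exact_mod_cast h3
    have h5 : (4 : ℤ) < (Dk n 0 : ℕ) := by
      rw [h1]
      push_cast
      linarith
    exact_mod_cast h5

private theorem Gwp_cj {n t : ℕ} [SqN n t] (a : Ideal (OO n t)) (m : ℕ) :
    cjI (a ^ m) = cjI a ^ m := by
  obtain ⟨-, c2, -, c4, -⟩ := aO3 n t
  induction m with
  | zero =>
    rw [pow_zero, pow_zero, Ideal.one_eq_top]
    have h := c4 (1 : OO n t)
    rw [cjO_one] at h
    have h2 : sp (1 : OO n t) = ⊤ := Ideal.span_singleton_one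
    rwa [h2] at h
  | succ m ih => rw [pow_succ, pow_succ, c2, ih]

private theorem Gwp_root {n t : ℕ} [SqN n t] {a b : Ideal (OO n t)} {p : ℕ} (hp : p ≠ 0)
    (ha : a ≠ ⊥) (hb : b ≠ ⊥) (h : a ^ p = b ^ p) : a = b := by
  have hd : IsDedekindDomain (OO n t) := aO1 n t
  classical
  have h1 : p • UniqueFactorizationMonoid.normalizedFactors a =
      p • UniqueFactorizationMonoid.normalizedFactors b := by
    rw [← UniqueFactorizationMonoid.normalizedFactors_pow, ← UniqueFactorizationMonoid.normalizedFactors_pow, h]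
  have h2 : UniqueFactorizationMonoid.normalizedFactors a = UniqueFactorizationMonoid.normalizedFactors b := by
    ext x
    have h3 := congrArg (Multiset.count x) h1
    rw [Multiset.count_nsmul, Multiset.count_nsmul] at h3
    exact Nat.eq_of_mul_eq_mul_left (Nat.pos_of_ne_zero hp) h3
  rw [← Ideal.prod_normalizedFactors_eq_self ha, ← Ideal.prod_normalizedFactors_eq_self hb, h2]

/-- One step. -/
theorem in_gwp (hX : S_XOm) (hD1 : S_D1) (hE1 : DS.S_E1) (hE10 : S_E10) {n t : ℕ} [SqN n t]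
    (hn : n ≠ 1) {P : Ideal ZZ} (hS : S3 n t P) {τ : Gal(Om/ℚ)} (hτ : τ ∈ GK n t)
    (hτi : τ ∈ P.inertia Gal(Om/ℚ)) {N : ℕ} (hN : Lv N) (h20 : 20 ∣ N) {a : Ideal (OO n t)} {p : ℕ}
    (hψ : Psi τ (3 * N) a) (hp : p.Prime) (hap : Prc (a ^ p)) : Prc a := by
  obtain ⟨-, -, c3, c4, -⟩ := aO3 n t
  have hN0 : 0 < N := hN.pos
  have h5N : 5 ∣ N := Dvd.dvd.trans (by norm_num) h20
  have h15 : 15 ∣ 3 * N := by
    obtain ⟨k, rfl⟩ := h5N
    exact ⟨k, by ring⟩
  have h3N0 : 0 < 3 * N := by positivity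
  have ha0 : a ≠ ⊥ := hψ.ne
  obtain ⟨-, -, hc⟩ := c3 a
  set c : Ideal (OO n t) := cjI a with hcdef
  set κ : OO n t := (NI a : OO n t) with hκ
  have hNI : NI a ≠ 0 := by
    intro h
    have h1 := ((aO6 n t).2.2.1 (15 * (3 * N)) a (by omega)).1 hψ.cop
    rw [h, Nat.coprime_zero_left] at h1
    omega
  have hκ0 : κ ≠ 0 := by
    intro h
    have h1 := congrArg Nm h
    rw [hκ, Nm_nat, Nm_zero] at h1
    exact hNI (by exact_mod_cast pow_eq_zero_iff (two_ne_zero) |>.1 h1)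
  obtain ⟨g₀, hg₀, hag⟩ := hap
  set g : OO n t := cjO g₀ with hg
  have hg0 : g ≠ 0 := by
    intro h
    apply hg₀
    rw [← cjO_cjO g₀, ← hg, h, cjO_zero]
  have hcp : c ^ p = sp g := by
    rw [hcdef, ← Gwp_cj, hag, c4]
  have hclaim : ∀ (q : Ideal (OO n t)) (l : ℕ), Deg1 q l → l.Coprime (30 * N) →
      ∃ u : OO n t, g - u ^ p ∈ q ∨ g + u ^ p ∈ q := by
    intro q l hq hl
    have hqp : q.IsPrime := hq.1
    have hlp : l.Prime := hq.2.2.1
    have hl30 : l.Coprime 30 := Nat.Coprime.coprime_dvd_right ⟨N, rfl⟩ hl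
    have hM : Lv (N * l) := ⟨Nat.mul_pos hN.pos hlp.pos, hN.even.mul_right l,
      Nat.Coprime.mul_left hN.cop (Nat.Coprime.coprime_dvd_right (by norm_num) hl30)⟩
    have hM0 : 0 < N * l := hM.pos
    have h15M : 15 ∣ 3 * (N * l) := by
      rw [← mul_assoc]
      exact h15.mul_right l
    obtain ⟨e11, -, -, -, e15⟩ := hE1 n t (3 * (N * l)) (by positivity) h15M
    obtain ⟨a₁, hψ₁⟩ := e11 τ hτ
    have hψN := e15 τ (3 * N) a₁ hψ₁ ⟨l, by ring⟩ h15
    obtain ⟨α, α', hα, hα', -, -, -, hαa⟩ := (hE1 n t (3 * N) h3N0 h15).2.1 τ a₁ a hψN hψ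
    obtain ⟨ρ, hρ0, hρ⟩ : Prc (a₁ * c) := by
      refine prc_of hα hα' (a' := a * c) ?_ ⟨κ, hκ0, hc⟩
      rw [← mul_assoc, hαa, mul_assoc]
    have hpr : Prc (a₁ ^ p) := by
      refine prc_of (α := α ^ p) (α' := α' ^ p) (pow_ne_zero _ hα) (pow_ne_zero _ hα') (a' := a ^ p) ?_
        ⟨g₀, hg₀, hag⟩
      have h1 : ∀ x : OO n t, sp (x ^ p) = sp x ^ p := fun x => (Ideal.span_singleton_pow x p).symm
      rw [h1, h1, ← mul_pow, ← mul_pow, hαa]
    obtain ⟨β, β', hβ, hβ', hβc, -, hβd, hβe⟩ := in_pri hX hD1 hE1 hE10 hn hS (pow_mem hτ p)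
      (pow_mem hτi p) hM (h20.mul_right l) (psi_pow hψ₁ p) hpr
    have hspan : sp (β * ρ ^ p) = sp (β' * g) := by
      have h1 : sp (ρ ^ p) = sp ρ ^ p := (Ideal.span_singleton_pow ρ p).symm
      rw [sp_mul', sp_mul', h1, ← hρ, mul_pow, ← mul_assoc, hβe, Ideal.mul_top, hcp]
    obtain ⟨u, hu⟩ := Ideal.span_singleton_eq_span_singleton.1 hspan
    have hu1 := Gwp_unit hn ((unit_iff (u : OO n t)).1 u.isUnit)
    obtain ⟨q1, -, -, -, q5⟩ := aDq n t q l hq
    have hlq : ((l : ℕ) : OO n t) ∈ q := by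
      have h1 := (q1 (l : ℤ)).2 (dvd_refl _)
      push_cast at h1
      exact h1
    have hMq : ((N * l : ℕ) : OO n t) ∈ q := by
      push_cast
      exact q.mul_mem_left _ hlq
    have hββ : β - β' ∈ q := by
      obtain ⟨x, hx⟩ := hβd
      rw [hx]
      exact q.mul_mem_right _ hMq
    have hβq : β ∉ q := by
      refine q5 β fun h1 => ?_
      have h2 : IsCoprime (Nm β) ((N * l : ℕ) : ℤ) := hβc
      have h3 : (l : ℤ) ∣ ((N * l : ℕ) : ℤ) := by
        push_cast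
        exact dvd_mul_left _ _
      have h4 := h2.isUnit_of_dvd' h1 h3
      have h5 := Int.isUnit_iff_natAbs_eq.1 h4
      rw [Int.natAbs_natCast] at h5
      exact hlp.one_lt.ne' h5
    refine ⟨ρ, ?_⟩
    rcases hu1 with h | h
    · left
      rw [h, mul_one] at hu
      have h1 : β * (g - ρ ^ p) ∈ q := by
        have e : β * (g - ρ ^ p) = (β - β') * g := by
          rw [mul_sub, hu]
          ring
        rw [e]
        exact q.mul_mem_right _ hββ
      exact (hqp.mem_or_mem h1).resolve_left hβq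
    · right
      rw [h] at hu
      have h1 : β * (g + ρ ^ p) ∈ q := by
        have e : β * (g + ρ ^ p) = (β - β') * g := by
          linear_combination (-1 : OO n t) * hu
        rw [e]
        exact q.mul_mem_right _ hββ
      exact (hqp.mem_or_mem h1).resolve_left hβq
  obtain ⟨v, hv⟩ := aGwc n t p g (30 * N) hp hg0 (by omega) hclaim
  have hv0 : v ≠ 0 := by
    rintro rfl
    rw [zero_pow hp.ne_zero] at hv
    rcases hv with h | h
    · exact hg0 h.symm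
    · exact hg0 (neg_eq_zero.1 h.symm)
  have hvs : sp v ^ p = c ^ p := by
    rw [hcp]
    have h1 : sp v ^ p = sp (v ^ p) := Ideal.span_singleton_pow v p
    rw [h1]
    rcases hv with h | h
    · rw [h]
    · rw [h]
      exact Ideal.span_singleton_neg g
  have hc0 : c ≠ ⊥ := by
    intro h
    rw [h, Ideal.mul_bot] at hc
    exact hκ0 (Ideal.span_singleton_eq_bot.1 hc.symm)
  have hvc : sp v = c := Gwp_root hp.ne_zero (fun h => hv0 (Ideal.span_singleton_eq_bot.1 h)) hc0 hvs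
  refine prc_of hv0 hκ0 (a' := ⊤) ?_ ⟨1, one_ne_zero, Ideal.span_singleton_one.symm⟩
  rw [hvc, mul_comm, hc, Ideal.mul_top]

private theorem in_gw_aux (hX : S_XOm) (hD1 : S_D1) (hE1 : DS.S_E1) (hE10 : S_E10) {n t : ℕ} [SqN n t]
    (hn : n ≠ 1) {P : Ideal ZZ} (hS : S3 n t P) {N : ℕ} (hN : Lv N) (h20 : 20 ∣ N) (h : ℕ) :
    ∀ τ ∈ GK n t, τ ∈ P.inertia Gal(Om/ℚ) → ∀ a : Ideal (OO n t), Psi τ (3 * N) a → 0 < h →
      Prc (a ^ h) → Prc a := by
  induction h using Nat.strong_induction_on with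
  | _ h ih =>
    intro τ hτ hi a hψ hh hah
    by_cases h1 : h = 1
    · rwa [h1, pow_one] at hah
    · obtain ⟨p, hp, m, rfl⟩ := Nat.exists_prime_and_dvd h1
      have hm : 0 < m := Nat.pos_of_mul_pos_left hh
      have hlt : m < p * m := by
        have h2 := hp.two_le
        nlinarith
      refine in_gwp hX hD1 hE1 hE10 hn hS hτ hi hN h20 hψ hp ?_
      exact ih m hlt (τ ^ p) (pow_mem hτ p) (pow_mem hi p) (a ^ p) (psi_pow hψ p) hm
        (by rw [← pow_mul]; exact hah)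

/-- THE CLASS OF `a` IS TRIVIAL. -/
theorem in_gw (hX : S_XOm) (hD1 : S_D1) (hE1 : DS.S_E1) (hE10 : S_E10) {n t : ℕ} [SqN n t]
    (hn : n ≠ 1) {P : Ideal ZZ} (hS : S3 n t P) {τ : Gal(Om/ℚ)} (hτ : τ ∈ GK n t)
    (hi : τ ∈ P.inertia Gal(Om/ℚ)) {N : ℕ} (hN : Lv N) (h20 : 20 ∣ N) {a : Ideal (OO n t)}
    (hψ : Psi τ (3 * N) a) : Prc a := by
  obtain ⟨h, α, hh, hα, hah⟩ := aO5 n t a hψ.ne
  exact in_gw_aux hX hD1 hE1 hE10 hn hS hN h20 h τ hτ hi a hψ hh ⟨α, hα, hah⟩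

/-- **Inertia above `3`, supersingular reduction.** -/
theorem in_main (hX : S_XOm) (hR1 : S_R1) (hD1 : S_D1) (hE1 : DS.S_E1) (hE10 : S_E10) {n t : ℕ}
    [inst : SqN n t] {P : Ideal ZZ} (hS : S3 n t P) {τ : Gal(Om/ℚ)} (hτ : τ ∈ GK n t)
    (hi : τ ∈ P.inertia Gal(Om/ℚ)) {N : ℕ} (hN : Lv N) (h20 : 20 ∣ N) {a : Ideal (OO n t)}
    (hψ : Psi τ (3 * N) a) : Ray N a (⊤ : Ideal (OO n t)) := by
  by_cases hn : n = 1
  · subst hn
    rcases inst.out with ⟨ht, -⟩ | ⟨ht, -⟩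
    · subst ht
      have : Ine 1 1 := { out := inst.out, one := rfl, odd := rfl }
      exact in_pr3 hX hR1 hD1 hE1 hE10 hS hτ hi hN h20 hψ
    · subst ht
      exact in_pr4 hX hR1 hD1 hE1 hE10 hS hτ hi hN h20 hψ
  · exact in_pri hX hD1 hE1 hE10 hn hS hτ hi hN h20 hψ (in_gw hX hD1 hE1 hE10 hn hS hτ hi hN h20 hψ)

/-- `S_E4n`. -/
theorem sE4n (hX : S_XOm) (hR1 : S_R1) (hR2 : S_R2) (hD1 : S_D1) (hE1 : DS.S_E1) (hE10 : S_E10) :
    S_E4n := by
  intro n t _ P hP τ hτ hi f N a hf hN hψ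
  have hS : S3 n t P := ⟨hP, hR2.2.1 n t P hP ⊤ g30_top⟩
  have hLv : Lv f := ⟨hf.pos, Dvd.dvd.trans (by norm_num) hf.dvd, hf.cop⟩
  refine in_main hX hR1 hD1 hE1 hE10 hS hτ hi hLv hf.dvd (Eb.psi_level hψ ?_)
  obtain ⟨k, rfl⟩ : ∃ k, N = k + 1 := ⟨N - 1, by omega⟩
  exact ⟨3 ^ k, by ring⟩

/-- Inertia elements above `3` are in `Gal(Om/K)`, `3` inert. -/
theorem in_GK {n t : ℕ} [h3 : Ine3 n t] {P : Ideal ZZ} (hP : Ab3 P) {τ : Gal(Om/ℚ)}
    (hτ : τ ∈ P.inertia Gal(Om/ℚ)) : τ ∈ GK n t := by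
  have : P.IsPrime := hP.1.1
  rw [mem_GK_iff]
  have hv : VP P (wO n t) := by
    have h := toO_VP (P := P) (wI n t)
    rwa [toO_wI] at h
  have h := DI.VP.inertia hτ hv
  have hsq := wO_sq (n := n) (t := t)
  have h4 : (τ (wO n t) - wO n t) * (τ (wO n t) - (t - wO n t)) = 0 := by
    have h4 := congrArg τ hsq
    simp only [map_sub, map_mul, map_pow, map_natCast] at h4
    linear_combination h4 - hsq
  rcases mul_eq_zero.1 h4 with h5 | h5
  · exact sub_eq_zero.1 h5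
  · exfalso
    have h6 : τ (wO n t) = t - wO n t := sub_eq_zero.1 h5
    rw [h6] at h
    have h7 : MP P (((Dk n t : ℕ) : ℤ) : Om) := by
      rw [Dk_cast]
      have e : ((4 * (n : ℤ) - (t : ℤ) ^ 2 : ℤ) : Om) =
          ((t : Om) - wO n t - wO n t) * (2 * wO n t - t) := by
        push_cast
        linear_combination (4 : Om) * hsq
      rw [e]
      refine DI.MP.mul_right h ?_
      have v2 : VP P (2 : Om) := by simpa using DI.VP.nat (P := P) 2
      exact (v2.mul hv).sub (DI.VP.nat t)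
    have h8 : ¬ MP P ((Dk n t : ℕ) : Om) := by
      refine hP.not_nat ?_
      have h9 := h3.one
      rw [Nat.coprime_comm, Nat.Prime.coprime_iff_not_dvd Nat.prime_three]
      omega
    exact h8 (by exact_mod_cast h7)

/-- `S_E4a` (`3` is inert). -/
theorem sE4a (hX : S_XOm) (hR1 : S_R1) (hR2 : S_R2) (hD1 : S_D1) (hE1 : DS.S_E1) (hE10 : S_E10) :
    S_E4a := by
  intro n t _ P hP τ hi
  have hτ : τ ∈ GK n t := in_GK hP hi
  refine ⟨hτ, fun N N' a hN h15 hN'N hN'3 hψ => ?_⟩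
  have hN'0 : 0 < N' := Nat.pos_of_dvd_of_pos hN'N hN
  have hS : S3 n t P := ⟨hP, hR2.2.1 n t P hP ⊤ g30_top⟩
  -- the level `60 N`
  obtain ⟨a', ha'⟩ := (hE1 n t (60 * N) (by positivity) (h15.mul_left 60)).1 τ hτ
  have h1 : Psi τ N a' := Eb.psi_level ha' ⟨60, by ring⟩
  have hray : Ray N' a' a := ray_dvd ((hE1 n t N hN h15).2.1 τ a' a h1 hψ) hN'N
  have hLv : Lv (20 * N') := ⟨by positivity, Dvd.dvd.mul_right (by norm_num) N',
    Nat.Coprime.mul_left (by norm_num) hN'3⟩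
  have h2 : Psi τ (3 * (20 * N')) a' := Eb.psi_level ha' (by
    obtain ⟨k, rfl⟩ := hN'N
    exact ⟨k, by ring⟩)
  have h3 := in_main hX hR1 hD1 hE1 hE10 hS hτ hi hLv ⟨N', rfl⟩ h2
  obtain ⟨-, o2, o3, -⟩ := aO7 n t N' hN'0
  exact o3 _ _ _ (o2 _ _ hray) (ray_dvd h3 ⟨20, by ring⟩)

end Pool.Agent.DM
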