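import Pool.Agent.Lib.DM.E.FrC

/-!
# Theorem DM: `S_BC` (author helper28)
-/

set_option autoImplicit false

open scoped Pointwise Topology nonZeroDivisors
open Filter

noncomputable section

namespace Pool.Agent.DM

open Pool.Agent.MuZ Pool.Agent.FW NumberField IsDedekindDomain
open Pool.Agent.DI (io ofC io_inj exists_io io_ofC ofC_io VP MP UP TP ex)
open Pool.Agent.DN

variable {n t : ℕ}

theorem pri_sp [SqN n t] {α : OO n t} {N : ℕ} (hN : 0 < N) (h : Cop α N) : PrI (sp α) N :=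
  ((aO6 n t).2.2.2.1 N α hN).2 h

theorem cop_four [SqN n t] {α : OO n t} (h : (4 : OO n t) ∣ α - 1) : Cop α 2 := by
  have h1 : ((2 : ℕ) : OO n t) ∣ 1 - α := by
    obtain ⟨u, hu⟩ := h
    refine ⟨-(2 * u), ?_⟩
    push_cast
    linear_combination -hu
  exact cop_congr h1 (cop_one 2)

/-- Homogeneity, elements prime to `2`. -/
theorem homG [SqN n t] {b : Ideal (OO n t)} (hb : b ≠ ⊥) (h2 : PrI b 2) {α : OO n t} (hα : α ≠ 0)
    (hc : Cop α 2) (z : ℂ) :
    fr (sp α * b) ^ 2 * XC (sp α * b) z =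
        (toC α * fr b) ^ 2 * (XC b (toC α * z) - XC b (toC α * (1 / 2))) ∧
      fr (sp α * b) ^ 3 * WC (sp α * b) z = (toC α * fr b) ^ 3 * WC b (toC α * z) := by
  have B := tBC hb h2
  have B' := tBC (Eb.ne_mul (Eb.ne_sp hα) hb) (Eb.pri_mul (pri_sp two_pos hc) h2)
  obtain ⟨h7, -⟩ := aB7 n t b hb
  obtain ⟨h8, -⟩ := h7 α hα
  constructor
  · have e1 := B'.wp z
    have e2 := (h8 z).1
    have e3 := (h8 (1 / 2)).1
    have e4 := B.wp (toC α * z)
    have e5 := B.wp (toC α * (1 / 2))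
    rw [e2, e3, e4, e5] at e1
    linear_combination -e1
  · rw [← B'.wd z, (h8 z).2.1, B.wd (toC α * z)]
    ring

/-- Homogeneity, elements `1` modulo `4`. -/
theorem hom1 [SqN n t] {b : Ideal (OO n t)} (hb : b ≠ ⊥) (h2 : PrI b 2) {α : OO n t} (hα : α ≠ 0)
    (h4 : (4 : OO n t) ∣ α - 1) :
    fr (sp α * b) = toC α * fr b ∧ cC (sp α * b) = cC b ∧
      ∀ z : ℂ, XC (sp α * b) z = XC b (toC α * z) ∧ WC (sp α * b) z = WC b (toC α * z) := by
  have hc := cop_four h4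
  have B := tBC hb h2
  have B' := tBC (Eb.ne_mul (Eb.ne_sp hα) hb) (Eb.pri_mul (pri_sp two_pos hc) h2)
  obtain ⟨h7, -⟩ := aB7 n t b hb
  obtain ⟨h8, -⟩ := h7 α hα
  have hA : toC α ≠ 0 := toC_ne hα
  obtain ⟨u, hu⟩ := h4
  have hu' : α = 1 + 4 * u := by linear_combination hu
  have hul : toC u ∈ Lam b := by
    have := lam_mul u B.l1
    rwa [mul_one] at this
  have hAu : toC α = 1 + 4 * toC u := by
    have e : (4 : OO n t) = ((4 : ℕ) : OO n t) := by norm_num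
    rw [hu', toC_add, toC_one, toC_mul, e, toC_nat]
    norm_num
  have q4 : toC α * (1 / 4) = 1 / 4 + toC u := by
    rw [hAu]
    ring
  have q2 : toC α * (1 / 2) = 1 / 2 + (toC u + toC u) := by
    rw [hAu]
    ring
  obtain ⟨b1, -⟩ := aB1 n t b hb
  have e4 := h8 (1 / 4)
  have e2 := h8 (1 / 2)
  rw [q4, (b1 _ _ hul).1, (b1 _ _ hul).2] at e4
  rw [q2, (b1 _ _ (lam_add hul hul)).1, (b1 _ _ (lam_add hul hul)).2] at e2
  have hf : fr (sp α * b) = toC α * fr b := by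
    rw [B'.frd, e4.1, e4.2.1, e2.1, B.frd]
    have := sub_ne_zero.2 B.w42
    field_simp
  have hX : ∀ z : ℂ, XC (sp α * b) z = XC b (toC α * z) ∧ WC (sp α * b) z = WC b (toC α * z) := by
    intro z
    obtain ⟨g1, g2⟩ := homG hb h2 hα hc z
    rw [hf] at g1 g2
    have hne : toC α * fr b ≠ 0 := mul_ne_zero hA B.fr0
    have q5 : XC b (toC α * (1 / 2)) = 0 := by
      rw [q2, (B.per _ _ (lam_add hul hul)).1, B.x2]
    rw [q5, sub_zero] at g1
    exact ⟨mul_left_cancel₀ (pow_ne_zero 2 hne) g1, mul_left_cancel₀ (pow_ne_zero 3 hne) g2⟩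
  refine ⟨hf, ?_, hX⟩
  have g := (hX (1 / 4)).1
  rw [q4, (B.per _ _ hul).1] at g
  exact g

/-- Homogeneity, elements `-1` modulo `4`. -/
theorem homN [SqN n t] {b : Ideal (OO n t)} (hb : b ≠ ⊥) (h2 : PrI b 2) {α : OO n t} (hα : α ≠ 0)
    (h4 : (4 : OO n t) ∣ α + 1) :
    fr (sp α * b) = -(toC α * fr b) ∧ cC (sp α * b) = cC b ∧
      ∀ z : ℂ, XC (sp α * b) z = XC b (toC α * z) ∧ WC (sp α * b) z = -WC b (toC α * z) := by
  have B := tBC hb h2
  have h : (4 : OO n t) ∣ -α - 1 := by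
    have e : -α - 1 = -(α + 1) := by ring
    rw [e]
    exact (dvd_neg).2 h4
  obtain ⟨g1, g2, g3⟩ := hom1 hb h2 (neg_ne_zero.2 hα) h
  have e : sp (-α) = sp α := Ideal.span_singleton_neg α
  rw [e] at g1 g2 g3
  rw [toC_neg] at g1
  refine ⟨by rw [g1]; ring, g2, fun z => ?_⟩
  have e2 : toC (-α) * z = -(toC α * z) := by
    rw [toC_neg]
    ring
  obtain ⟨g4, g5⟩ := g3 z
  rw [e2] at g4 g5
  rw [g4, g5]
  exact B.neg _

/-- The smoothed function `g`. -/
theorem ggG [SqN n t] {m b : Ideal (OO n t)} (hm : m ≠ ⊥) (hb : b ≠ ⊥) (h2 : PrI b 2)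
    (hm2 : PrI m 2) (z : ℂ) (hz : z ∉ Lam (m * b)) :
    gC m b z = ∑ u ∈ hs m b, WC b z / (XC b z - XC b u) := by
  classical
  have B := tBC hb h2
  obtain ⟨hS, hcard⟩ := aB14 n t m b hm hb hm2
  obtain ⟨hR, _, hsum⟩ := B11_sys hm hb hm2 hS
  have hzb : z ∉ Lam b := fun h => hz (lam_mono h)
  have hF := B.fr0
  have hK := (aB9 n t m b hm hb _ hR).2.2 z hz
  rw [hsum (fun u => KC b (z + u))] at hK
  simp only [add_zero] at hK
  have hterm : ∀ u ∈ hs m b, KC b (z + u) + KC b (z + -u) =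
      2 * KC b z + fr b * (WC b z / (XC b z - XC b u)) := by
    intro u hu
    obtain ⟨hu1, hu2⟩ := hS.mem u hu
    have n1 : z + u ∉ Lam (m * b) := fun h => hz (by
      have := lam_sub h hu1
      rwa [add_sub_cancel_right] at this)
    have n2 : z - u ∉ Lam (m * b) := fun h => hz (by
      have := lam_add h hu1
      rwa [sub_add_cancel] at this)
    have n1' : z + u ∉ Lam b := fun h => n1 (lam_mono h)
    have n2' : z - u ∉ Lam b := fun h => n2 (lam_mono h)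
    have hne : XC b z - XC b u ≠ 0 := by
      intro h0
      rcases (B.inj z u hzb hu2).1 (sub_eq_zero.1 h0) with h5 | h5
      · exact n2' h5
      · exact n1' h5
    have h5 := (aB10 n t b hb).2.2.2 z u hzb hu2 n1' n2'
    rw [B.wp z, B.wp u, B.wd z] at h5
    rw [← sub_eq_add_neg]
    have h7 : KC b (z + u) + KC b (z - u) - 2 * KC b z = fr b * (WC b z / (XC b z - XC b u)) := by
      rw [mul_div_assoc', eq_div_iff hne]
      apply mul_left_cancel₀ (pow_ne_zero 2 hF)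
      linear_combination h5
    linear_combination h7
  rw [Finset.sum_congr rfl hterm, Finset.sum_add_distrib, Finset.sum_const, nsmul_eq_mul,
    ← Finset.mul_sum] at hK
  have hN : (NI m : ℂ) = 2 * (hs m b).card + 1 := by
    rw [← hcard]
    push_cast
    ring
  unfold gC
  rw [hK, hN, div_eq_iff hF]
  ring

/-- **`S_BC`.** -/
theorem aBC : S_BC := by
  intro n t _ b hb h2
  have B := tBC hb h2
  have hbc : cjI b ≠ ⊥ := Eb.ne_cj aO3 hb
  have h2c : PrI (cjI b) 2 := ((aO3 n t).2.2.2.2.1 b 2).2 h2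
  have B' := tBC hbc h2c
  refine ⟨B, ?_, fun α hα h4 => hom1 hb h2 hα h4,
    fun α hα hc z => homG hb h2 hα hc z, ?_,
    fun m hm _ hm30 z hz => ggG hm hb h2 (Eb.pri_dvd hm30 ⟨15, rfl⟩) z hz⟩
  · intro a ha ha2 R hR
    have Ba := tBC (Eb.ne_mul ha hb) (Eb.pri_mul ha2 h2)
    obtain ⟨s1, s2, -⟩ := aB9 n t a b ha hb R hR
    constructor
    · intro z z' hz hz'
      have h := s1 z z' hz hz'
      rw [Ba.wp z, Ba.wp z'] at h
      rw [Finset.mul_sum]
      have e : fr (a * b) ^ 2 * (XC (a * b) z - XC (a * b) z') =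
          fr (a * b) ^ 2 * XC (a * b) z + wpC (a * b) (1 / 2) -
            (fr (a * b) ^ 2 * XC (a * b) z' + wpC (a * b) (1 / 2)) := by ring
      rw [e, h]
      refine Finset.sum_congr rfl fun u _ => ?_
      rw [B.wp (z + u), B.wp (z' + u)]
      ring
    · intro z hz
      rw [← Ba.wd, s2 z hz, Finset.mul_sum]
      exact Finset.sum_congr rfl fun u _ => B.wd (z + u)
  · obtain ⟨-, h7, -⟩ := aB7 n t b hb
    have hr2 : (starRingEnd ℂ) (1 / 2 : ℂ) = 1 / 2 := by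
      rw [map_div₀, map_one, map_ofNat]
    have hr4 : (starRingEnd ℂ) (1 / 4 : ℂ) = 1 / 4 := by
      rw [map_div₀, map_one, map_ofNat]
    have hf : (starRingEnd ℂ) (fr b) = fr (cjI b) := by
      rw [B.frd, B'.frd, map_div₀, map_sub, (h7 (1 / 4)).2.1, (h7 (1 / 4)).1, (h7 (1 / 2)).1, hr2, hr4]
    have hX : ∀ z : ℂ, (starRingEnd ℂ) (XC b z) = XC (cjI b) ((starRingEnd ℂ) z) ∧
        (starRingEnd ℂ) (WC b z) = WC (cjI b) ((starRingEnd ℂ) z) := by
      intro z
      unfold XC WC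
      rw [map_div₀, map_sub, map_pow, hf, (h7 z).1, (h7 (1 / 2)).1, hr2, map_div₀, map_pow, hf,
        (h7 z).2.1]
      exact ⟨rfl, rfl⟩
    refine ⟨hf, ?_, hX⟩
    have := (hX (1 / 4)).1
    rw [hr4] at this
    exact this

end Pool.Agent.DM
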