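import Pool.Agent.Lib.DM.E.E10

/-!
# Theorem DM: complex conjugation (`S_Cj`) (author helper28)
-/

set_option autoImplicit false

open scoped Pointwise Topology nonZeroDivisors
open Filter

noncomputable section

namespace Pool.Agent.DM

open Pool.Agent.MuZ Pool.Agent.FW NumberField IsDedekindDomain
open Pool.Agent.DI (io ofC io_inj exists_io io_ofC ofC_io VP MP UP TP ex)
open Pool.Agent.DN

variable {n t : ℕ}


theorem lam_cj [SqN n t] {b : Ideal (OO n t)} (hb : b ≠ ⊥) {z : ℂ} :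
    (starRingEnd ℂ) z ∈ Lam (cjI b) ↔ z ∈ Lam b := by
  obtain ⟨-, -, -, -, -, -, h, -⟩ := aL2 n t
  rw [h b _ hb, Complex.conj_conj]

theorem g30_cj [SqN n t] {b : Ideal (OO n t)} (hb : G30 b) : G30 (cjI b) :=
  ⟨Eb.ne_cj aO3 hb.ne, ((aO3 n t).2.2.2.2.1 b 30).2 hb.cop⟩

theorem tor_cj [SqN n t] {z : ℂ} (hz : Tor n t z) : Tor n t ((starRingEnd ℂ) z) := by
  obtain ⟨v, N, hN, rfl⟩ := hz
  refine ⟨cjO v, N, hN, ?_⟩
  rw [map_div₀, conj_toC, map_natCast]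

/-- The conjugate half system. -/
theorem half_cj [SqN n t] {m b : Ideal (OO n t)} (hm : m ≠ ⊥) (hb : b ≠ ⊥) {S : Finset ℂ}
    (hS : IsHalf m b S) : IsHalf (cjI m) (cjI b) (S.image (starRingEnd ℂ)) := by
  have hmb : cjI m * cjI b = cjI (m * b) := ((aO3 n t).2.1 m b).symm
  have hne := Eb.ne_mul hm hb
  refine ⟨?_, ?_, ?_⟩
  · intro u hu
    obtain ⟨v, hv, rfl⟩ := Finset.mem_image.1 hu
    rw [hmb, lam_cj hne, lam_cj hb]
    exact hS.mem v hv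
  · intro z hz hz'
    have e : z = (starRingEnd ℂ) ((starRingEnd ℂ) z) := (Complex.conj_conj z).symm
    rw [hmb, e, lam_cj hne] at hz
    rw [e, lam_cj hb] at hz'
    obtain ⟨u, hu, h⟩ := hS.ex _ hz hz'
    refine ⟨(starRingEnd ℂ) u, Finset.mem_image_of_mem _ hu, ?_⟩
    rw [e, ← map_sub, ← map_add, lam_cj hb, lam_cj hb]
    exact h
  · intro u hu u' hu' h
    obtain ⟨v, hv, rfl⟩ := Finset.mem_image.1 hu
    obtain ⟨v', hv', rfl⟩ := Finset.mem_image.1 hu'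
    rw [← map_sub, ← map_add, lam_cj hb, lam_cj hb] at h
    rw [hS.uni v hv v' hv' h]

/-- **`S_Cj`.** -/
theorem tCj (h : DS.S_R1) : S_Cj := by
  obtain ⟨c, hc, -⟩ := h.2
  refine ⟨c, hc, fun n t _ => ⟨fun v => ?_, ?_, ?_⟩⟩
  · apply io_inj
    rw [hc, io_toO, io_toO, conj_toC]
  · intro b hb
    have hb' := g30_cj hb
    obtain ⟨⟨a1, a2, a3, a4, -⟩, -⟩ := tRC h n t b hb
    obtain ⟨⟨b1, b2, b3, b4, -⟩, -⟩ := tRC h n t _ hb'
    obtain ⟨-, -, -, -, ⟨k1, k2, k3⟩, -⟩ := aBC n t b hb.ne hb.p2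
    obtain ⟨-, -, k4⟩ := aB7 n t b hb.ne
    refine ⟨hb', ?_, ?_, fun z hz => ⟨?_, ?_⟩, fun b' hb1 => ?_⟩
    · apply io_inj
      rw [hc, a1, b1, k2]
    · apply io_inj
      rw [hc, a2, b2, map_div₀, k1, (k4 hb.g15.cop).2.1]
    · apply io_inj
      rw [hc, (a3 z hz).1, (b3 _ (tor_cj hz)).1, (k3 z).1]
    · apply io_inj
      rw [hc, (a3 z hz).2, (b3 _ (tor_cj hz)).2, (k3 z).2]
    · apply io_inj
      obtain ⟨-, -, -, -, ⟨l1, -⟩, -⟩ := aBC n t b' hb1.ne hb1.p2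
      rw [hc, (a4 b' hb1).1, (b4 _ (g30_cj hb1)).1, map_div₀, k1, l1]
  · intro m b hm hb hm30 z hz
    have hb' := g30_cj hb
    have hm' := Eb.ne_cj aO3 hm
    have hm30' : PrI (cjI m) 30 := ((aO3 n t).2.2.2.2.1 m 30).2 hm30
    have hmb : cjI m * cjI b = cjI (m * b) := ((aO3 n t).2.1 m b).symm
    have hNI : NI (cjI m) = NI m := ((aO3 n t).2.2.1 m).2.1
    obtain ⟨⟨-, -, a3, -, a5⟩, -⟩ := tRC h n t b hb
    obtain ⟨⟨-, -, b3, -, b5⟩, -⟩ := tRC h n t _ hb'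
    obtain ⟨-, -, -, -, ⟨k1, k2, k3⟩, -⟩ := aBC n t b hb.ne hb.p2
    constructor
    · intro hz'
      apply io_inj
      have hz'' : (starRingEnd ℂ) z ∉ Lam (cjI m * cjI b) := by
        rw [hmb, lam_cj (Eb.ne_mul hm hb.ne)]
        exact hz'
      rw [hc, (a5 m hm hm30 z hz).1 hz', (b5 _ hm' hm30' _ (tor_cj hz)).1 hz'']
      obtain ⟨-, k4, -⟩ := aB7 n t b hb.ne
      obtain ⟨-, k5, -⟩ := aB7 n t (m * b) (Eb.ne_mul hm hb.ne)
      unfold gC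
      rw [map_div₀, map_sub, map_mul, map_natCast, k1, (k4 z).2.2, (k5 z).2.2, hmb, hNI]
    · obtain ⟨hS, -⟩ := aB14 n t m b hm hb.ne (Eb.pri_dvd hm30 ⟨15, rfl⟩)
      rw [tht_half h hm hb hm30 hS hz, tht_half h hm' hb' hm30' (half_cj hm hb.ne hS) (tor_cj hz),
        map_prod, Finset.prod_image (fun x _ y _ h => (starRingEnd ℂ).injective h)]
      refine Finset.prod_congr rfl fun u hu => ?_
      have hu1 : Tor n t u := tor_lam (Eb.ne_mul hm hb.ne) (hS.mem u hu).1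
      have hu2 : Tor n t (2 * u) := by
        rw [two_mul]
        exact tor_add hu1 hu1
      have hx : ∀ y : ℂ, Tor n t y → c (xO b y) = xO (cjI b) ((starRingEnd ℂ) y) := by
        intro y hy
        apply io_inj
        rw [hc, (a3 y hy).1, (b3 _ (tor_cj hy)).1, (k3 y).1]
      rw [map_div₀, map_sub, map_sub, hx u hu1, hx _ hu2, hx z hz, map_mul, map_ofNat]

end Pool.Agent.DM
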