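import Pool.Agent.Lib.DM.E.XOm
import Pool.Agent.Lib.DN.E.SyA
import Pool.Agent.Lib.DN.E.HsA

/-!
# Theorem DM: Galois action (`S_E10`), dependence on the ray class (`S_Cl`) (author helper28)
-/

set_option autoImplicit false

open scoped Pointwise Topology nonZeroDivisors
open Filter

noncomputable section

namespace Pool.Agent.DM

open Pool.Agent.MuZ Pool.Agent.FW NumberField IsDedekindDomain
open Pool.Agent.DI (io ofC io_inj exists_io io_ofC ofC_io VP MP UP TP ex)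
open Pool.Agent.DN

variable {n t : ℕ}

theorem psi_g30 {τ : Gal(Om/ℚ)} {N : ℕ} {a : Ideal (OO n t)} (h60 : 60 ∣ N) (h : Psi τ N a) : G30 a :=
  ⟨h.ne, Eb.pri_dvd (Eb.psi_pri h) ((by norm_num : 30 ∣ 60).trans h60)⟩

/-- `j/k` is an `N`-torsion point if `k` divides `N`. -/
theorem lam_frac [SqN n t] {b : Ideal (OO n t)} {N k : ℕ} (hk : 0 < k) (h : k ∣ N) :
    (N : ℂ) * (1 / (k : ℂ)) ∈ Lam b := by
  obtain ⟨c, rfl⟩ := h
  have hk' : (k : ℂ) ≠ 0 := by exact_mod_cast hk.ne'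
  have e : ((k * c : ℕ) : ℂ) * (1 / (k : ℂ)) = toC ((c : ℕ) : OO n t) := by
    rw [toC_nat]
    push_cast
    field_simp
  rw [e]
  have h5 : toC ((c : ℕ) : OO n t) ∈ Lam (⊤ : Ideal (OO n t)) := lam_top.2 ⟨_, rfl⟩
  exact lam_anti le_top h5

/-- Theta and half systems. -/
theorem tht_half [SqN n t] (h : DS.S_R1) {m b : Ideal (OO n t)} (hm : m ≠ ⊥) (hb : G30 b) (hm30 : PrI m 30)
    {S : Finset ℂ} (hS : IsHalf m b S) {z : ℂ} (hz : Tor n t z) :
    Theta m b z = ∏ u ∈ S, (xO b u - xO b (2 * u)) / (xO b z - xO b u) := by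
  have X := tXOm h n t b hb
  obtain ⟨-, -, -, -, -, -, -, c8⟩ := tCv h n t b hb
  rw [(c8 m hm hm30).2.2 z hz]
  obtain ⟨hS', -⟩ := aB14 n t m b hm hb.ne (Eb.pri_dvd hm30 ⟨15, rfl⟩)
  refine (HsA_both m b _ _ hS' hS (fun u => (xO b u - xO b (2 * u)) / (xO b z - xO b u)) ?_).1
  intro y _
  have e1 : xO b (-y) = xO b y := X.cng' _ _ (Or.inr (by rw [neg_add_cancel]; exact lam_zero b))
  have e2 : xO b (2 * -y) = xO b (2 * y) := X.cng' _ _ (Or.inr (by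
    have e : 2 * -y + 2 * y = 0 := by ring
    rw [e]
    exact lam_zero b))
  refine ⟨by rw [e1, e2], fun l hl => ?_⟩
  have e3 : xO b (y + l) = xO b y := (X.per _ _ hl).1
  have e4 : xO b (2 * (y + l)) = xO b (2 * y) := X.cng' _ _ (Or.inl (by
    have e : 2 * (y + l) - 2 * y = l + l := by ring
    rw [e]
    exact lam_add hl hl))
  rw [e3, e4]

/-- **`S_E10`.** -/
theorem tE10 (h : DS.S_R1) (h10 : DS.S_E10) : S_E10 := by
  intro n t _ τ N a hN h60 hP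
  have h15 : 15 ∣ N := (by norm_num : 15 ∣ 60).trans h60
  have ga := psi_g30 h60 hP
  have haN := Eb.psi_pri hP
  obtain ⟨p1, p2⟩ := h10 n t τ N a hN h15 hP
  have l2 : ∀ b : Ideal (OO n t), (N : ℂ) * (1 / 2) ∈ Lam b := fun b => by
    have := lam_frac (b := b) two_pos ((by norm_num : 2 ∣ 60).trans h60)
    rwa [Nat.cast_ofNat] at this
  have l4 : ∀ b : Ideal (OO n t), (N : ℂ) * (1 / 4) ∈ Lam b := fun b => by
    have := lam_frac (b := b) four_pos ((by norm_num : 4 ∣ 60).trans h60)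
    rwa [Nat.cast_ofNat] at this
  have hs : ∀ b : Ideal (OO n t), G30 b → τ (sO b) = sO (a * b) := by
    intro b hb
    have hab := ga.mul hb
    obtain ⟨-, -, -, c1, -⟩ := tCv h n t b hb
    obtain ⟨-, -, -, c1', -⟩ := tCv h n t _ hab
    rw [c1, c1', map_div₀, map_sub, hP.xx b hb.ne hb.g15.cop _ (l4 b), hP.xx b hb.ne hb.g15.cop _ (l2 b),
      (p1 b hb.g15).1 _ (l4 b)]
  have hx : ∀ b : Ideal (OO n t), G30 b → ∀ z : ℂ, (N : ℂ) * z ∈ Lam b →
      τ (xO b z) = xO (a * b) z ∧ τ (vO b z) = vO (a * b) z := by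
    intro b hb z hz
    have hab := ga.mul hb
    have hT : Tor n t z := (tor_iff hb.ne).2 ⟨N, hN, hz⟩
    obtain ⟨-, -, -, -, c2, -⟩ := tCv h n t b hb
    obtain ⟨-, -, -, -, c2', -⟩ := tCv h n t _ hab
    rw [(c2 z hT).1, (c2 z hT).2, (c2' z hT).1, (c2' z hT).2, map_div₀, map_div₀, map_sub, map_pow,
      map_pow, hs b hb, hP.xx b hb.ne hb.g15.cop _ hz, hP.xx b hb.ne hb.g15.cop _ (l2 b),
      (p1 b hb.g15).1 _ hz]
    exact ⟨rfl, rfl⟩
  refine ⟨ga, fun b hb => ⟨ga.mul hb, (hx b hb _ (l4 b)).1, hs b hb, hx b hb, fun c hc => ?_⟩, ?_⟩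
  · obtain ⟨-, -, -, -, -, -, c3, -⟩ := tCv h n t b hb
    obtain ⟨-, -, -, -, -, -, c3', -⟩ := tCv h n t _ (ga.mul hb)
    rw [c3 c hc, c3' _ (ga.mul hc), map_div₀, map_mul, hs b hb, hs c hc, (p1 b hb.g15).2 c hc.g15]
  · intro m b hm hb hm30 hmN z hz
    have hab := ga.mul hb
    have hT : Tor n t z := (tor_iff hb.ne).2 ⟨N, hN, hz⟩
    have hm15 : PrI m 15 := Eb.pri_dvd hm30 ⟨2, rfl⟩
    have hm2 : PrI m 2 := Eb.pri_dvd hm30 ⟨15, rfl⟩
    constructor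
    · intro hz'
      obtain ⟨-, -, -, -, -, -, -, c4⟩ := tCv h n t b hb
      obtain ⟨-, -, -, -, -, -, -, c4'⟩ := tCv h n t _ hab
      have hz'' : z ∉ Lam (m * (a * b)) := by
        intro h5
        apply hz'
        have e : m * (a * b) = a * (m * b) := by ring
        rw [e] at h5
        exact (aL5 n t a (m * b) N ga.ne (Eb.ne_mul hm hb.ne) hN haN).1 z (lam_mono hz) h5
      rw [(c4 m hm hm30).1 z hT hz', (c4' m hm hm30).1 z hT hz'', map_div₀, hs b hb,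
        ((p2 m b hm hb.g15 hm2 hm15 hmN z hz).1 hz')]
    · obtain ⟨hS, -⟩ := aB14 n t m b hm hb.ne hm2
      obtain ⟨-, q2, -, q4⟩ := (sSyA aO6 aL5) n t a b m N ga.ne hb.ne hm hN haN hmN
      rw [tht_half h hm hb hm30 hS hT, tht_half h hm hab hm30 (q4 _ hS) hT, map_prod]
      refine Finset.prod_congr rfl fun u hu => ?_
      have hNu := q2 u (hS.mem u hu).1
      have hNu2 : (N : ℂ) * (2 * u) ∈ Lam b := by
        have e : (N : ℂ) * (2 * u) = (N : ℂ) * u + (N : ℂ) * u := by ring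
        rw [e]
        exact lam_add hNu hNu
      rw [map_div₀, map_sub, map_sub, (hx b hb u hNu).1, (hx b hb _ hNu2).1, (hx b hb z hz).1]

/-- **`S_Cl`.** -/
theorem tCl (h : DS.S_R1) (h1 : DS.S_E1) (h7 : DS.S_E7) (h10 : DS.S_E10) : S_Cl := by
  intro n t _ N a a' hN h60 ha haN hR
  have h15 : 15 ∣ N := (by norm_num : 15 ∣ 60).trans h60
  obtain ⟨τ, -, hP⟩ := h7 n t N a hN h15 ha haN
  obtain ⟨-, -, e3, -⟩ := h1 n t N hN h15
  have hP' := e3 τ a a' hP hR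
  obtain ⟨-, p1, p2⟩ := tE10 h h10 n t τ N a hN h60 hP
  obtain ⟨-, p1', p2'⟩ := tE10 h h10 n t τ N a' hN h60 hP'
  refine ⟨hP'.ne, Eb.psi_pri hP', fun b hb => ?_, fun m b hm hb hm30 hmN z hz => ?_⟩
  · obtain ⟨-, u1, u2, u3, u4⟩ := p1 b hb
    obtain ⟨-, v1, v2, v3, v4⟩ := p1' b hb
    exact ⟨u1.symm.trans v1, u2.symm.trans v2, fun z hz => ⟨(u3 z hz).1.symm.trans (v3 z hz).1,
      (u3 z hz).2.symm.trans (v3 z hz).2⟩, fun c hc => (u4 c hc).symm.trans (v4 c hc)⟩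
  · obtain ⟨u1, u2⟩ := p2 m b hm hb hm30 hmN z hz
    obtain ⟨v1, v2⟩ := p2' m b hm hb hm30 hmN z hz
    exact ⟨fun hz' => (u1 hz').symm.trans (v1 hz'), u2.symm.trans v2⟩

end Pool.Agent.DM
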