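import Pool.Agent.Lib.DM.Iface
import Pool.Agent.Lib.DS.E.E4l

/-!
# Theorem DM, part E: `S_E4b` from `DS.S_E4l` (author helper9)
-/

set_option autoImplicit false

open scoped Pointwise nonZeroDivisors

noncomputable section

namespace Pool.Agent.DM

open Pool.Agent.MuZ Pool.Agent.FW Pool.Agent.DN NumberField IsDedekindDomain
open Pool.Agent.DI (io ofC io_inj exists_io io_ofC ofC_io VP MP UP TP ex)

theorem sE4b_of (h : DS.S_E4l) (b1 : DN.S_B1) : S_E4b := by
  intro n t _ Q hQ τ _ hi v b δ N hN h60 hb hδ hle hA hv hΨ z hz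
  have hQp : Q.IsPrime := hQ.1
  obtain ⟨hper, hev, -⟩ := b1 n t b hb.ne
  have key : v - 1 ∈ δ ∨ v + 1 ∈ δ := by
    have h60' : ∀ p : ℕ, p ∣ 60 → ((p : ℕ) : OO n t) ∣ v - 1 := by
      intro p hp
      refine dvd_trans ?_ hv
      have := Nat.cast_dvd_cast (α := OO n t) hp
      exact_mod_cast this
    by_cases h3 : ((3 : ℕ) : ZZ) ∈ Q
    · have h5 : ((5 : ℕ) : ZZ) ∉ Q := by
        intro h5
        apply hQp.one_notMem
        have e : (1 : ZZ) = 2 * ((3 : ℕ) : ZZ) - ((5 : ℕ) : ZZ) := by norm_num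
        rw [e]
        exact Q.sub_mem (Q.mul_mem_left _ h3) h5
      exact h n t 5 (by norm_num) Q hQ h5 τ hi v δ N hN (dvd_trans (by norm_num) h60)
        (dvd_trans (by norm_num) h60) hδ hle hA (h60' 5 (by norm_num)) hΨ
    · exact h n t 3 (by norm_num) Q hQ h3 τ hi v δ N hN (dvd_trans (by norm_num) h60)
        (dvd_trans (by norm_num) h60) hδ hle hA (h60' 3 (by norm_num)) hΨ
  have hz' := lam_prod.1 hz
  rcases key with h1 | h1
  · have h2 := hz' _ h1
    rw [toC_sub, toC_one, sub_mul, one_mul] at h2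
    have h3 := (hper z (toC v * z - z) h2).1
    rwa [add_sub_cancel] at h3
  · have h2 := hz' _ h1
    rw [toC_add, toC_one, add_mul, one_mul] at h2
    have h3 := (hper (-z) (toC v * z + z) h2).1
    have e : -z + (toC v * z + z) = toC v * z := by ring
    rw [e, (hev z).1] at h3
    exact h3

end Pool.Agent.DM
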