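import Pool.Agent.Lib.DM.IfaceE
import Pool.Agent.Lib.DN.B.All
import Pool.Agent.Lib.DN.E.SpecB

/-!
# Theorem DM: the second framing over the complex numbers: `BC b` (author helper28)
-/

set_option autoImplicit false

open scoped Pointwise Topology nonZeroDivisors
open Filter

noncomputable section

namespace Pool.Agent.DM

open Pool.Agent.MuZ Pool.Agent.FW NumberField IsDedekindDomain
open Pool.Agent.DI (io ofC io_inj exists_io io_ofC ofC_io VP MP UP TP ex)
open Pool.Agent.DN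

variable {n t : ℕ}

/-- The marked points. -/
theorem pts [SqN n t] {b : Ideal (OO n t)} (hb : b ≠ ⊥) (h2 : PrI b 2) :
    (1 : ℂ) ∈ Lam b ∧ (1 / 2 : ℂ) ∉ Lam b ∧ (1 / 4 : ℂ) ∉ Lam b ∧ (3 / 4 : ℂ) ∉ Lam b := by
  have l1 : (1 : ℂ) ∈ Lam b := by
    have h5 : (1 : ℂ) ∈ Lam (⊤ : Ideal (OO n t)) := lam_top.2 ⟨1, toC_one.symm⟩
    exact lam_anti le_top h5
  have half : (1 / 2 : ℂ) ∉ Lam b := by
    intro h
    have h1 := (aL6.1 n t b 2 hb two_pos h2 1).1 (by rw [toC_one, Nat.cast_ofNat]; exact h)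
    have h3 := ((nat_dvd_iff 2 (1 : OO n t)).1 h1).1
    rw [re_one] at h3
    omega
  have quar : (1 / 4 : ℂ) ∉ Lam b := by
    intro h
    apply half
    have := lam_add h h
    norm_num at this ⊢
    exact this
  refine ⟨l1, half, quar, fun h => quar ?_⟩
  have := lam_sub l1 h
  norm_num at this ⊢
  exact this

private theorem alg {e p q F g2 g3 : ℂ} (hD : p - e ≠ 0) (hq : q ^ 2 = F * (p - e) ^ 2)
    (he : 4 * e ^ 3 - g2 * e - g3 = 0) (hc : q ^ 2 = 4 * p ^ 3 - g2 * p - g3)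
    (hd : e * q ^ 2 = (p ^ 2 + g2 / 4) ^ 2 + 2 * g3 * p) :
    12 * e = F - 8 * (p - e) ∧ 12 * e ^ 2 - g2 = 4 * (p - e) ^ 2 := by
  have h2 : ((p - e) ^ 2 - (12 * e ^ 2 - g2) / 4) ^ 2 = 0 := by
    linear_combination e * hc - hd + (2 * p + e) * he
  have h3 : (p - e) ^ 2 - (12 * e ^ 2 - g2) / 4 = 0 := by simpa using h2
  have h4 : 12 * e ^ 2 - g2 = 4 * (p - e) ^ 2 := by linear_combination -4 * h3
  refine ⟨?_, h4⟩
  apply mul_left_cancel₀ (pow_ne_zero 2 hD)
  linear_combination hq - hc - he - (p - e) * h4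

/-- **The second framing over `ℂ`.** -/
theorem tBC [SqN n t] {b : Ideal (OO n t)} (hb : b ≠ ⊥) (h2 : PrI b 2) : BC b := by
  obtain ⟨l1, half, quar, tq⟩ := pts hb h2
  obtain ⟨b1, b2, b3, b4, b5, -⟩ := aB1 n t b hb
  have hq2 : 2 * (1 / 4 : ℂ) = 1 / 2 := by norm_num
  have w42 : wpC b (1 / 4) ≠ wpC b (1 / 2) := by
    intro h
    rcases (b4 _ _ quar half).1 h with h | h
    · apply quar
      have := lam_neg h
      norm_num at this ⊢
      exact this
    · apply tq
      norm_num at h ⊢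
      exact h
  have wd4 : wdC b (1 / 4) ≠ 0 := by
    intro h
    have := (b5 _ quar).1 h
    rw [hq2] at this
    exact half this
  have frd : fr b = wdC b (1 / 4) / (wpC b (1 / 4) - wpC b (1 / 2)) := by
    unfold fr
    rw [if_pos ⟨hb, h2⟩]
  have hD : wpC b (1 / 4) - wpC b (1 / 2) ≠ 0 := sub_ne_zero.2 w42
  have fr0 : fr b ≠ 0 := by
    rw [frd]
    exact div_ne_zero wd4 hD
  have hF : fr b ^ 2 ≠ 0 := pow_ne_zero 2 fr0
  have hF3 : fr b ^ 3 ≠ 0 := pow_ne_zero 3 fr0
  have hfD : wdC b (1 / 4) = fr b * (wpC b (1 / 4) - wpC b (1 / 2)) := by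
    rw [frd, div_mul_cancel₀ _ hD]
  have hcD : wpC b (1 / 4) - wpC b (1 / 2) = fr b ^ 2 * cC b := by
    unfold cC XC
    rw [mul_div_cancel₀ _ hF]
  have c0 : cC b ≠ 0 := by
    intro h
    rw [h, mul_zero] at hcD
    exact hD hcD
  have wp : ∀ z : ℂ, wpC b z = fr b ^ 2 * XC b z + wpC b (1 / 2) := by
    intro z
    unfold XC
    rw [mul_div_cancel₀ _ hF]
    ring
  have wd : ∀ z : ℂ, wdC b z = fr b ^ 3 * WC b z := by
    intro z
    unfold WC
    rw [mul_div_cancel₀ _ hF3]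
  have hw2 : wdC b (1 / 2) = 0 := by
    refine (b5 _ half).2 ?_
    norm_num
    exact l1
  obtain ⟨⟨k2, -⟩, -⟩ := aB2 n t b hb _ half
  obtain ⟨⟨k4, -⟩, -⟩ := aB2 n t b hb _ quar
  have kd := ((aB3 n t b hb).2 (1 / 4) (by rw [hq2]; exact half)).1
  rw [hq2] at kd
  have he : 4 * wpC b (1 / 2) ^ 3 - (LP b).g₂ * wpC b (1 / 2) - (LP b).g₃ = 0 := by
    rw [← k2, hw2]
    ring
  obtain ⟨q1, q2⟩ := alg (F := fr b ^ 2) hD (by rw [hfD]; ring) he k4 kd
  have e2 : 12 * wpC b (1 / 2) = fr b ^ 2 * (1 - 8 * cC b) := by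
    linear_combination q1 - 8 * hcD
  have g2 : 12 * (LP b).g₂ = fr b ^ 4 * ((1 - 8 * cC b) ^ 2 - 48 * cC b ^ 2) := by
    linear_combination (12 * wpC b (1 / 2) + fr b ^ 2 * (1 - 8 * cC b)) * e2 - 12 * q2 -
      48 * (wpC b (1 / 4) - wpC b (1 / 2) + fr b ^ 2 * cC b) * hcD
  have g3 : 216 * (LP b).g₃ = fr b ^ 6 * (72 * (1 - 8 * cC b) * cC b ^ 2 - (1 - 8 * cC b) ^ 3) := by
    linear_combination -216 * he + ((1 / 2 : ℂ) * ((12 * wpC b (1 / 2)) ^ 2 +
      12 * wpC b (1 / 2) * (fr b ^ 2 * (1 - 8 * cC b)) + (fr b ^ 2 * (1 - 8 * cC b)) ^ 2) -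
      (3 / 2 : ℂ) * (12 * (LP b).g₂)) * e2 - (3 / 2 : ℂ) * (fr b ^ 2 * (1 - 8 * cC b)) * g2
  have dsc : 16 * cC b ≠ 1 := by
    intro h
    have hc : cC b = 1 / 16 := by linear_combination (1 / 16 : ℂ) * h
    rw [hc] at e2 g2 g3
    have x1 : wpC b (1 / 2) = fr b ^ 2 / 24 := by linear_combination (1 / 12 : ℂ) * e2
    have x2 : (LP b).g₂ = fr b ^ 4 / 192 := by linear_combination (1 / 12 : ℂ) * g2
    have x3 : (LP b).g₃ = fr b ^ 6 / 13824 := by linear_combination (1 / 216 : ℂ) * g3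
    refine tDsc (LP b) (-(fr b ^ 2) / 48) ?_ ?_
    · rw [x2, x3]
      ring
    · rw [x2]
      ring
  have XC2 : XC b (1 / 2) = 0 := by
    unfold XC
    rw [sub_self, zero_div]
  have WC2 : WC b (1 / 2) = 0 := by
    unfold WC
    rw [hw2, zero_div]
  have XC4 : XC b (1 / 4) = cC b := rfl
  have WC4 : WC b (1 / 4) = cC b := by
    apply mul_left_cancel₀ hF3
    rw [← wd, hfD, hcD]
    ring
  have E2 : wpC b (1 / 2) = fr b ^ 2 * (1 - 8 * cC b) / 12 := by
    linear_combination (1 / 12 : ℂ) * e2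
  have G2 : (LP b).g₂ = fr b ^ 4 * ((1 - 8 * cC b) ^ 2 - 48 * cC b ^ 2) / 12 := by
    linear_combination (1 / 12 : ℂ) * g2
  have G3 : (LP b).g₃ =
      fr b ^ 6 * (72 * (1 - 8 * cC b) * cC b ^ 2 - (1 - 8 * cC b) ^ 3) / 216 := by
    linear_combination (1 / 216 : ℂ) * g3
  have hF4 : fr b ^ 4 ≠ 0 := pow_ne_zero 4 fr0
  have hF6 : fr b ^ 6 ≠ 0 := pow_ne_zero 6 fr0
  have hF8 : fr b ^ 8 ≠ 0 := pow_ne_zero 8 fr0
  have sub : ∀ z z' : ℂ, wpC b z - wpC b z' = fr b ^ 2 * (XC b z - XC b z') := by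
    intro z z'
    rw [wp z, wp z']
    ring
  have inj : ∀ z z' : ℂ, z ∉ Lam b → z' ∉ Lam b →
      (XC b z = XC b z' ↔ z - z' ∈ Lam b ∨ z + z' ∈ Lam b) := fun z z' hz hz' => by
    rw [← b4 z z' hz hz', ← sub_eq_zero, ← sub_eq_zero (a := wpC b z), sub z z', mul_eq_zero]
    exact ⟨fun h => Or.inr h, fun h => h.resolve_left hF⟩
  have kad : ∀ z z' : ℂ, z ∉ Lam b → z' ∉ Lam b → z + z' ∉ Lam b → z - z' ∉ Lam b →
      (XC b (z + z') + XC b (z - z')) * (XC b z - XC b z') ^ 2 =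
      2 * XC b z * XC b z' * (XC b z + XC b z') + (1 - 8 * cC b) * (XC b z * XC b z') +
        2 * cC b ^ 2 * (XC b z + XC b z') := fun z z' hz hz' h h' => by
    obtain ⟨h3, -⟩ := (aB3 n t b hb).1 z z' hz hz' h h'
    rw [sub z z', wp z, wp z', wp (z + z'), wp (z - z'), E2, G2, G3] at h3
    apply mul_left_cancel₀ hF6
    linear_combination h3
  exact
    { l1 := l1, half := half, quar := quar, w42 := w42, wd4 := wd4, fr0 := fr0, frd := frd, c0 := c0,
      dsc := dsc, x2 := XC2, w2 := WC2, x4 := XC4, w4 := WC4, e2 := e2, g2 := g2, g3 := g3, wp := wp,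
      wd := wd
      per := fun z l hl => by
        obtain ⟨h3, h4⟩ := b1 z l hl
        unfold XC WC
        rw [h3, h4]
        exact ⟨rfl, rfl⟩
      neg := fun z => by
        obtain ⟨h3, h4⟩ := b2 z
        unfold XC WC
        rw [h3, h4, neg_div]
        exact ⟨rfl, rfl⟩
      lat := fun z hz => by
        obtain ⟨h3, h4⟩ := b3 z hz
        refine ⟨?_, by unfold WC; rw [h4, zero_div]⟩
        have h5 := wp z
        rw [h3, E2] at h5
        apply mul_left_cancel₀ hF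
        linear_combination -12 * h5
      inj := inj
      two := fun z hz => by
        rw [← b5 z hz, wd z, mul_eq_zero]
        exact ⟨fun h => Or.inr h, fun h => h.resolve_left hF3⟩
      crv := fun z hz => by
        obtain ⟨⟨h3, -⟩, -⟩ := aB2 n t b hb z hz
        rw [wp z, wd z, E2, G2, G3] at h3
        apply mul_left_cancel₀ hF6
        linear_combination h3
      drx := fun z hz => by
        obtain ⟨⟨-, -, -, h3, -⟩, -⟩ := aB2 n t b hb z hz
        have h4 := (h3.sub_const (wpC b (1 / 2))).div_const (fr b ^ 2)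
        have e : wdC b z / fr b ^ 2 = fr b * WC b z := by
          rw [wd z, div_eq_iff hF]
          ring
        rw [e] at h4
        exact h4
      drw := fun z hz => by
        obtain ⟨⟨-, -, -, -, h3⟩, -⟩ := aB2 n t b hb z hz
        have h4 := h3.div_const (fr b ^ 3)
        have e : w2C b z / fr b ^ 3 =
            fr b * (6 * XC b z ^ 2 + (1 - 8 * cC b) * XC b z + 2 * cC b ^ 2) := by
          unfold w2C
          rw [wp z, E2, G2, div_eq_iff hF3]
          ring
        rw [e] at h4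
        exact h4
      kad := kad
      kml := fun z z' hz hz' h h' => by
        obtain ⟨h3, h4, -⟩ := (aB3 n t b hb).1 z z' hz hz' h h'
        rw [sub z z', wp z, wp z', wp (z + z'), wp (z - z'), E2, G2, G3] at h3 h4
        apply mul_left_cancel₀ hF8
        linear_combination h4 - fr b ^ 2 * (1 - 8 * cC b) / 12 * h3
      ksb := fun z z' hz hz' h h' => by
        obtain ⟨-, -, h3, -⟩ := (aB3 n t b hb).1 z z' hz hz' h h'
        rw [sub z z', sub (z + z') (z - z'), wd z, wd z'] at h3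
        apply mul_left_cancel₀ hF6
        linear_combination h3
      dup := fun z hz => by
        have h3 := ((aB3 n t b hb).2 z hz).1
        have hz' : z ∉ Lam b := fun h => hz (by
          rw [two_mul]
          exact lam_add h h)
        obtain ⟨⟨h4, -⟩, -⟩ := aB2 n t b hb z hz'
        rw [wp (2 * z), wp z, wd z, E2, G2, G3] at h3
        rw [wp z, wd z, E2, G2, G3] at h4
        apply mul_left_cancel₀ hF8
        linear_combination h3 - fr b ^ 2 * (1 - 8 * cC b) / 12 * h4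
      th := fun z hz hz' => by
        have h1 : z - 1 / 2 ∉ Lam b := fun h => hz' (by
          have h5 := lam_add h l1
          have e : z - 1 / 2 + 1 = z + 1 / 2 := by ring
          rwa [e] at h5)
        have h3 : XC b z ≠ 0 := fun h => by
          rw [← XC2] at h
          rcases (inj z (1 / 2) hz half).1 h with h5 | h5
          · exact h1 h5
          · exact hz' h5
        have h4 : XC b (z - 1 / 2) = XC b (z + 1 / 2) := by
          have e : z + 1 / 2 = z - 1 / 2 + 1 := by ring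
          rw [e]
          unfold XC
          rw [(b1 (z - 1 / 2) 1 l1).1]
        have h5 := kad z (1 / 2) hz half hz' h1
        rw [h4, XC2] at h5
        apply mul_left_cancel₀ h3
        linear_combination (1 / 2 : ℂ) * h5 }

end Pool.Agent.DM
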