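import Pool.Agent.Lib.DM.IfaceE
import Pool.Agent.Lib.DN.O.All

/-!
# Theorem DM: the groups `H3`, `H3N`, `HP`, `HPN` (`S_HG`) (author helper28)
-/

set_option autoImplicit false

open scoped Pointwise nonZeroDivisors

noncomputable section

namespace Pool.Agent.DM

open Pool.Agent.MuZ Pool.Agent.FW NumberField IsDedekindDomain
open Pool.Agent.DI (io ofC io_inj exists_io io_ofC ofC_io VP MP UP TP ex)
open Pool.Agent.DN

variable {n t : ℕ}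

theorem ray_pow [SqN n t] {N : ℕ} (hN : 0 < N) {a b : Ideal (OO n t)}
    (h : Ray N a b) (j : ℕ) : Ray N (a ^ j) (b ^ j) := by
  induction j with
  | zero => rw [pow_zero, pow_zero]; exact (aO7 n t N hN).1 _
  | succ j ih => rw [pow_succ, pow_succ]; exact (aO7 n t N hN).2.2.2.1 _ _ _ _ ih h

private theorem tpow (j : ℕ) : (⊤ : Ideal (OO n t)) ^ j = ⊤ := by
  rw [← Ideal.one_eq_top, one_pow]

theorem cjI_top [SqN n t] : cjI (⊤ : Ideal (OO n t)) = ⊤ := by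
  have h := (aO3 n t).2.2.2.1 1
  rw [cjO_one] at h
  unfold sp at h
  rwa [Ideal.span_singleton_one] at h

private theorem cpow [SqN n t] (a : Ideal (OO n t)) (j : ℕ) :
    cjI (a ^ j) = cjI a ^ j := by
  induction j with
  | zero =>
    rw [pow_zero, pow_zero, Ideal.one_eq_top]
    exact cjI_top
  | succ j ih => rw [pow_succ, pow_succ, (aO3 n t).2.1, ih]

theorem NI_top [SqN n t] : NI (⊤ : Ideal (OO n t)) = 1 := by
  unfold NI
  have : Subsingleton (OO n t ⧸ (⊤ : Ideal (OO n t))) := Ideal.Quotient.subsingleton_iff.2 rfl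
  exact Nat.card_unique

private theorem mul1 {M x y : ℤ} (hx : M ∣ x - 1) (hy : M ∣ y - 1) : M ∣ x * y - 1 := by
  have e : x * y - 1 = (x - 1) * y + (y - 1) := by ring
  rw [e]
  exact dvd_add (hx.mul_right y) hy

private theorem cg1 {M x y : ℤ} (hx : M ∣ x - 1) (h : M ∣ x - y) : M ∣ y - 1 := by
  have e : y - 1 = (x - 1) - (x - y) := by ring
  rw [e]
  exact dvd_sub hx h

private theorem cop3 {m N : ℕ} (h : (3 : ℤ) ^ N ∣ (m : ℤ) - 1) : m.Coprime (3 ^ N) := by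
  rw [← Nat.isCoprime_iff_coprime]
  push_cast
  obtain ⟨c, hc⟩ := h
  exact ⟨1, -c, by linear_combination hc⟩

private theorem H3A [SqN n t] {f : ℕ} (hf : 0 < 3 * f) :
    Eb.HG (3 * f) (H3 (n := n) (t := t) f) where
  top := ⟨0, by rw [pow_zero, pow_one]; exact (aO7 n t (3 * f) hf).1 _⟩
  cop := by
    rintro a ⟨j, hj⟩
    obtain ⟨g1, g2⟩ := (aO7 n t (3 * f) hf).2.2.2.2.2.1 _ _ hj
    have e : (3 : ℕ) ^ j ≠ 0 := by positivity
    refine ⟨?_, ?_⟩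
    · rintro rfl
      refine g1.2 Eb.ne_top ?_
      rw [← Ideal.zero_eq_bot]
      exact zero_pow e
    · have g3 := g2.2 (Eb.pri_top (3 * f))
      unfold PrI at *
      rw [eq_top_iff, ← g3]
      exact sup_le_sup_right (Ideal.pow_le_self e) _
  ray := by
    rintro a a' ⟨j, hj⟩ h
    exact ⟨j, (aO7 n t (3 * f) hf).2.2.1 _ _ _ ((aO7 n t (3 * f) hf).2.1 _ _ (ray_pow hf h (3 ^ j))) hj⟩
  mul := by
    rintro a a' ⟨j, hj⟩ ⟨j', hj'⟩
    refine ⟨j + j', ?_⟩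
    have e : (a * a') ^ 3 ^ (j + j') = (a ^ 3 ^ j) ^ 3 ^ j' * (a' ^ 3 ^ j') ^ 3 ^ j := by
      rw [mul_pow, ← pow_mul, ← pow_mul, ← pow_add, ← pow_add, add_comm j' j]
    rw [e]
    have g1 := ray_pow hf hj (3 ^ j')
    have g2 := ray_pow hf hj' (3 ^ j)
    have g3 := (aO7 n t (3 * f) hf).2.2.2.1 _ _ _ _ g1 g2
    rwa [tpow, tpow, Ideal.top_mul] at g3
  cj := by
    rintro a ⟨j, hj⟩
    refine ⟨j, ?_⟩
    rw [← cpow]
    have g := (aO3 n t).2.2.2.2.2 (3 * f) _ _ hj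
    rwa [cjI_top] at g

private theorem dv {f N : ℕ} (h : 1 ≤ N) : 3 * f ∣ f * 3 ^ N := by
  rw [mul_comm 3 f]
  exact mul_dvd_mul_left f (dvd_pow_self 3 (by omega))

private theorem H3B [SqN n t] {f : ℕ} (hf0 : 0 < f) {N : ℕ} (hN1 : 1 ≤ N) :
    Eb.HG (f * 3 ^ N) (H3N (n := n) (t := t) f N) := by
  have A : Eb.HG (3 * f) (H3 (n := n) (t := t) f) := H3A (by omega)
  have hd : 3 * f ∣ f * 3 ^ N := dv hN1
  have hN : 0 < f * 3 ^ N := Nat.mul_pos hf0 (by positivity)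
  have hC : ∀ a : Ideal (OO n t), H3N f N a → a ≠ ⊥ ∧ PrI a (f * 3 ^ N) := by
    rintro a ⟨g1, g2⟩
    obtain ⟨g3, g4⟩ := A.cop a g1
    refine ⟨g3, ?_⟩
    rw [(aO6 n t).2.1]
    refine ⟨Eb.pri_dvd g4 (dvd_mul_left f 3), ?_⟩
    rw [(aO6 n t).2.2.1 _ _ (by positivity)]
    exact cop3 g2
  refine ⟨⟨A.top, ?_⟩, hC, ?_, ?_, ?_⟩
  · rw [NI_top]
    simp
  · rintro a a' h hr
    obtain ⟨g1, g2⟩ := h
    have g3 := (hC a ⟨g1, g2⟩).2
    have g4 := ((aO7 n t _ hN).2.2.2.2.2.1 _ _ hr).2.1 g3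
    refine ⟨A.ray a a' g1 ((aO7 n t _ hN).2.2.2.2.2.2.1 (3 * f) _ _ hd hr), ?_⟩
    refine cg1 g2 (dvd_trans ?_ (aO9 n t _ hN a a' g3 g4 hr))
    push_cast
    exact dvd_mul_left _ _
  · rintro a a' ⟨g1, g2⟩ ⟨g3, g4⟩
    refine ⟨A.mul a a' g1 g3, ?_⟩
    rw [(aO2 n t).2.2.2.2.1 a a']
    push_cast
    exact mul1 g2 g4
  · rintro a ⟨g1, g2⟩
    refine ⟨A.cj a g1, ?_⟩
    rw [((aO3 n t).2.2.1 a).2.1]
    exact g2

/-- The classes of the principal ideals with a generator in a group `V`. -/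
theorem gen_HG [SqN n t] {M : ℕ} (hM : 0 < M)
    (V : OO n t → Prop) (v1 : V 1) (vc : ∀ v, V v → Cop v M) (vm : ∀ v u, V v → V u → V (v * u))
    (vj : ∀ v, V v → V (cjO v)) (H : Ideal (OO n t) → Prop)
    (hH : ∀ a, H a ↔ ∃ v : OO n t, v ≠ 0 ∧ V v ∧ Ray M a (sp v)) : Eb.HG M H where
  top := by
    refine (hH ⊤).2 ⟨1, one_ne_zero, v1, ?_⟩
    have e : sp (1 : OO n t) = ⊤ := Ideal.span_singleton_one
    rw [e]
    exact (aO7 n t M hM).1 _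
  cop := by
    intro a ha
    obtain ⟨v, hv, h, hr⟩ := (hH a).1 ha
    obtain ⟨g1, g2⟩ := (aO7 n t M hM).2.2.2.2.2.1 _ _ hr
    exact ⟨g1.2 (Eb.ne_sp hv), g2.2 (((aO6 n t).2.2.2.1 M v hM).2 (vc v h))⟩
  ray := by
    intro a a' ha h
    obtain ⟨v, hv, g, hr⟩ := (hH a).1 ha
    exact (hH a').2 ⟨v, hv, g, (aO7 n t M hM).2.2.1 _ _ _ ((aO7 n t M hM).2.1 _ _ h) hr⟩
  mul := by
    intro a a' ha ha'
    obtain ⟨v, hv, g, hr⟩ := (hH a).1 ha
    obtain ⟨u, hu, g', hr'⟩ := (hH a').1 ha'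
    refine (hH _).2 ⟨v * u, mul_ne_zero hv hu, vm v u g g', ?_⟩
    have h := (aO7 n t M hM).2.2.2.1 _ _ _ _ hr hr'
    have e : sp v * sp u = sp (v * u) := Ideal.span_singleton_mul_span_singleton v u
    rwa [e] at h
  cj := by
    intro a ha
    obtain ⟨v, hv, g, hr⟩ := (hH a).1 ha
    refine (hH _).2 ⟨cjO v, ?_, vj v g, ?_⟩
    · intro h0
      apply hv
      rw [← cjO_cjO v, h0, cjO_zero]
    · have h := (aO3 n t).2.2.2.2.2 M _ _ hr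
      rwa [(aO3 n t).2.2.2.1 v] at h

private theorem mono3 {f j j' : ℕ} {v : OO n t} (h : (f : OO n t) ∣ v ^ 3 ^ j - 1)
    (hj : j ≤ j') : (f : OO n t) ∣ v ^ 3 ^ j' - 1 := by
  obtain ⟨i, rfl⟩ := Nat.exists_eq_add_of_le hj
  rw [pow_add, pow_mul]
  have h1 := sub_dvd_pow_sub_pow (v ^ 3 ^ j) 1 (3 ^ i)
  rw [one_pow] at h1
  exact h.trans h1

theorem Hf_one (f : ℕ) : Hf f (1 : OO n t) :=
  ⟨cop_one _, 0, by rw [one_pow, sub_self]; exact dvd_zero _⟩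

theorem Hf_mul {f : ℕ} {v u : OO n t} (hv : Hf f v) (hu : Hf f u) : Hf f (v * u) := by
  obtain ⟨h1, j, hj⟩ := hv
  obtain ⟨h2, i, hi⟩ := hu
  refine ⟨cop_mul h1 h2, max j i, ?_⟩
  have g1 := mono3 hj (le_max_left j i)
  have g2 := mono3 hi (le_max_right j i)
  have e : (v * u) ^ 3 ^ max j i - 1 =
      (v ^ 3 ^ max j i - 1) * u ^ 3 ^ max j i + (u ^ 3 ^ max j i - 1) := by
    rw [mul_pow]
    ring
  rw [e]
  exact dvd_add (g1.mul_right _) g2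

theorem Hf_cj {f : ℕ} {v : OO n t} (hv : Hf f v) : Hf f (cjO v) := by
  obtain ⟨h1, j, c, hc⟩ := hv
  refine ⟨cop_cj h1, j, cjO c, ?_⟩
  have h := congrArg (cjE n t) hc
  rw [map_sub, map_pow, map_one, map_mul, map_natCast] at h
  exact h

theorem cop_lev {f N : ℕ} {v : OO n t} (h : Cop v (3 * f)) : Cop v (f * 3 ^ N) := by
  unfold Cop at *
  push_cast at *
  rw [IsCoprime.mul_right_iff] at *
  exact ⟨h.2, h.1.pow_right⟩

/-- **`S_HG`.** -/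
theorem aHG : S_HG := by
  intro n t _ f hf0
  have hN : ∀ N : ℕ, 0 < f * 3 ^ N := fun N => Nat.mul_pos hf0 (by positivity)
  have h3f : 0 < 3 * f := by omega
  have A : Eb.HG (3 * f) (HP (n := n) (t := t) f) :=
    gen_HG h3f (Hf f) (Hf_one f) (fun v hv => hv.1) (fun v u => Hf_mul)
      (fun v => Hf_cj) _ (fun a => Iff.rfl)
  have B : ∀ N : ℕ, Eb.HG (f * 3 ^ N) (HPN (n := n) (t := t) f N) := by
    intro N
    refine gen_HG (hN N) (fun v => HN f N v)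
      ⟨Hf_one f, ?_⟩ (fun v hv => cop_lev hv.1.1) ?_ ?_ _ (fun a => Iff.rfl)
    · rw [Nm_one, sub_self]
      exact dvd_zero _
    · rintro v u ⟨g1, g2⟩ ⟨g4, g5⟩
      refine ⟨Hf_mul g1 g4, ?_⟩
      rw [Nm_mul]
      exact mul1 g2 g5
    · rintro v ⟨g1, g2⟩
      refine ⟨Hf_cj g1, ?_⟩
      rw [Nm_cjO]
      exact g2
  have C : ∀ a : Ideal (OO n t), HP f a → H3 f a := by
    rintro a ⟨v, g1, ⟨g2, j, hj⟩, g3⟩
    refine ⟨j, ?_⟩
    have g4 := ray_pow h3f g3 (3 ^ j)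
    rw [Ideal.span_singleton_pow] at g4
    refine (aO7 n t _ h3f).2.2.1 _ _ _ g4 ?_
    have g5 : Cop (v ^ 3 ^ j) (3 * f) := by
      refine cop_congr (a := 1) ?_ (cop_one _)
      rw [← dvd_neg, neg_sub]
      exact hj
    have g6 := ((aO7 n t _ h3f).2.2.2.2.2.2.2.1 (v ^ 3 ^ j) 1 (pow_ne_zero _ g1) one_ne_zero g5
      (cop_one _)).2 ⟨1, Nm_one, by rwa [mul_one]⟩
    have e : sp (1 : OO n t) = ⊤ := Ideal.span_singleton_one
    rwa [e] at g6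
  refine ⟨H3A h3f, fun N hN1 => H3B hf0 hN1, A, fun N _ => B N, C, ?_⟩
  intro N a hN1 ha
  have hc := ((B N).cop a ha).2
  obtain ⟨v, g1, ⟨g2, g3⟩, g5⟩ := ha
  have g6 : Ray (3 * f) a (sp v) := (aO7 n t _ (hN N)).2.2.2.2.2.2.1 (3 * f) _ _ (dv hN1) g5
  refine ⟨C a ⟨v, g1, g2, g6⟩, ?_⟩
  have g7 := aO9 n t _ (hN N) a (sp v) hc (((aO6 n t).2.2.2.1 _ v (hN N)).2 (cop_lev g2.1)) g5
  rw [(aO2 n t).2.2.2.1 v] at g7
  have g8 : (3 : ℤ) ^ N ∣ Nm v - NI a := by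
    rw [← neg_sub]
    refine (dvd_neg).2 (dvd_trans ?_ g7)
    push_cast
    exact dvd_mul_left _ _
  exact cg1 g3 g8

end Pool.Agent.DM
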