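import Pool.Agent.Lib.DM.Iface
import Pool.Agent.Lib.DM.E.R1
import Pool.Agent.Lib.DS.E.AllA

/-!
# Theorem DM, part E: inertia above `3`: affine maps (author helper39)

`P` is above `3`, supersingular reduction (`c = -1` modulo `P`, the curve is `W² = X³ + X`). `N` is even and prime to `3`. An element `γ` of
`O` prime to `N` for which `z ↦ γ z` is an affine map `X ↦ al X + r` modulo `P` on the `N`-torsion of `ℂ / O` (`AfM`): `al = ± 1`,
`r ^ 3 = - r` modulo `P`; if `al = 1` then `γ ^ 3 = ± 1` modulo `N`, if `al = -1` then `γ ^ 2 = ± 1`; if there is a fixed point `z`, `2 z ≠ 0`,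
then `γ = ± 1`.
-/

set_option autoImplicit false

open scoped Pointwise nonZeroDivisors

noncomputable section

namespace Pool.Agent.DM

open Pool.Agent.MuZ Pool.Agent.FW NumberField IsDedekindDomain
open Pool.Agent.DI (io ofC io_inj exists_io io_ofC ofC_io VP MP UP TP ex)
open Pool.Agent.DN

/-- `z ↦ γ z` is an affine map for the coordinate `X` of `ℂ / O` modulo `P`, on the `N`-torsion. -/
structure AfM {n t : ℕ} (P : Ideal ZZ) (N : ℕ) (γ : OO n t) (al r : Om) : Prop where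
  cop : Cop γ N
  hal : UP P al
  hr : VP P r
  aff : ∀ z : ℂ, (N : ℂ) * z ∈ Lam (⊤ : Ideal (OO n t)) → z ∉ Lam (⊤ : Ideal (OO n t)) →
    MP P (xO (⊤ : Ideal (OO n t)) (toC γ * z) - (al * xO (⊤ : Ideal (OO n t)) z + r))

/-- SUPERSINGULAR REDUCTION at the prime `P` above `3`. -/
structure S3 (n t : ℕ) (P : Ideal ZZ) : Prop where
  ab : Ab3 P
  c1 : MP P (cO (⊤ : Ideal (OO n t)) + 1)

/-- The conditions on the level. -/
structure Lv (N : ℕ) : Prop where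
  pos : 0 < N
  even : 2 ∣ N
  cop : N.Coprime 3

variable {n t : ℕ}

/-! ## Basic facts -/

theorem Ab3.not_two {P : Ideal ZZ} (hP : Ab3 P) : ¬ MP P 2 := by
  intro h
  have : P.IsPrime := hP.1.1
  have h1 := DI.MP.sub hP.2 h
  norm_num at h1
  exact DI.MP.one_not h1

theorem Ab3.not_nat {P : Ideal ZZ} (hP : Ab3 P) {N : ℕ} (hN : N.Coprime 3) : ¬ MP P (N : Om) := by
  intro h
  have : P.IsPrime := hP.1.1
  have h1 : IsCoprime (N : ℤ) 3 := by exact_mod_cast hN.isCoprime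
  obtain ⟨a, b, hab⟩ := h1
  have h2 : MP P (1 : Om) := by
    have e : (1 : Om) = (a : Om) * (N : Om) + (b : Om) * 3 := by
      have := congrArg (fun x : ℤ => (x : Om)) hab
      push_cast at this
      exact this.symm
    rw [e]
    exact (DI.MP.mul_left (DI.VP.int a) h).add (DI.MP.mul_left (DI.VP.int b) hP.2)
  exact DI.MP.one_not h2

/-- Two conditions which cover a group. -/
private theorem cover {a : Ideal (OO n t)} {μ : ℂ} {N : ℕ} [SqN n t]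
    (h : ∀ z : ℂ, (N : ℂ) * z ∈ Lam (⊤ : Ideal (OO n t)) → μ * z - z ∈ Lam a ∨ μ * z + z ∈ Lam a) :
    ∃ e : ℤ, (e = 1 ∨ e = -1) ∧
      ∀ z : ℂ, (N : ℂ) * z ∈ Lam (⊤ : Ideal (OO n t)) → (μ - e) * z ∈ Lam a := by
  by_cases h1 : ∀ z : ℂ, (N : ℂ) * z ∈ Lam (⊤ : Ideal (OO n t)) → μ * z - z ∈ Lam a
  · refine ⟨1, Or.inl rfl, fun z hz => ?_⟩
    have e : (μ - ((1 : ℤ) : ℂ)) * z = μ * z - z := by
      push_cast
      ring
    rw [e]
    exact h1 z hz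
  · push Not at h1
    obtain ⟨z₁, hz₁, hn₁⟩ := h1
    have hp₁ : μ * z₁ + z₁ ∈ Lam a := (h z₁ hz₁).resolve_left hn₁
    refine ⟨-1, Or.inr rfl, fun z hz => ?_⟩
    have e : (μ - ((-1 : ℤ) : ℂ)) * z = μ * z + z := by
      push_cast
      ring
    rw [e]
    by_contra hn
    have hp : μ * z - z ∈ Lam a := (h z hz).resolve_right hn
    have hs : (N : ℂ) * (z₁ + z) ∈ Lam (⊤ : Ideal (OO n t)) := by
      rw [mul_add]
      exact lam_add hz₁ hz
    rcases h _ hs with h2 | h2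
    · apply hn₁
      have e2 : μ * z₁ - z₁ = (μ * (z₁ + z) - (z₁ + z)) - (μ * z - z) := by ring
      rw [e2]
      exact lam_sub h2 hp
    · apply hn
      have e2 : μ * z + z = (μ * (z₁ + z) + (z₁ + z)) - (μ * z₁ + z₁) := by ring
      rw [e2]
      exact lam_sub h2 hp₁

/-- The `N`-torsion points are not in the kernel. -/
theorem in_pt (hD1 : S_D1) [SqN n t] {P : Ideal ZZ} (hP : Ab3 P) {N : ℕ} (hN : Lv N) {z : ℂ}
    (hz : (N : ℂ) * z ∈ Lam (⊤ : Ideal (OO n t))) (hzn : z ∉ Lam (⊤ : Ideal (OO n t))) :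
    Tor n t z ∧ ¬ IK P (⊤ : Ideal (OO n t)) z ∧ VP P (xO (⊤ : Ideal (OO n t)) z) := by
  have hD := hD1 n t P hP.1 hP.not_two ⊤ g30_top
  have hT : Tor n t z := (tor_iff Eb.ne_top).2 ⟨N, hN.pos, hz⟩
  have hI : ¬ IK P (⊤ : Ideal (OO n t)) z := by
    intro hI
    apply hzn
    have h1 := hD.2.2.2.2.1 z hI (N : OO n t) 1 (by rw [toO_nat]; exact hP.not_nat hN.cop)
      (by rwa [mul_one, toC_nat])
    rwa [toC_one, one_mul] at h1
  refine ⟨hT, hI, ?_⟩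
  by_contra hV
  exact hI ⟨hT, Or.inr hV⟩

/-- Separation. -/
theorem in_sep (hD1 : S_D1) [SqN n t] {P : Ideal ZZ} (hP : Ab3 P) {N : ℕ} (hN : Lv N) {z z' : ℂ}
    (hz : (N : ℂ) * z ∈ Lam (⊤ : Ideal (OO n t))) (hzn : z ∉ Lam (⊤ : Ideal (OO n t)))
    (hz' : (N : ℂ) * z' ∈ Lam (⊤ : Ideal (OO n t))) (hzn' : z' ∉ Lam (⊤ : Ideal (OO n t)))
    (hx : MP P (xO (⊤ : Ideal (OO n t)) z - xO (⊤ : Ideal (OO n t)) z')) :
    z - z' ∈ Lam (⊤ : Ideal (OO n t)) ∨ z + z' ∈ Lam (⊤ : Ideal (OO n t)) := by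
  obtain ⟨hT, hI, -⟩ := in_pt hD1 hP hN hz hzn
  obtain ⟨hT', hI', -⟩ := in_pt hD1 hP hN hz' hzn'
  rcases (hD1 n t P hP.1 hP.not_two ⊤ g30_top).2.2.2.2.2.2 z z' hT hT' hI hI' hx with h | h
  · right
    by_contra hn
    refine (in_pt hD1 hP hN ?_ hn).2.1 h
    rw [mul_add]
    exact lam_add hz hz'
  · left
    by_contra hn
    refine (in_pt hD1 hP hN ?_ hn).2.1 h
    rw [mul_sub]
    exact lam_sub hz hz'

/-- Multiplication by an element prime to `N`. -/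
theorem in_mul [SqN n t] {N : ℕ} (hN : Lv N) {γ : OO n t} {z : ℂ} (hγ : Cop γ N)
    (hz : (N : ℂ) * z ∈ Lam (⊤ : Ideal (OO n t))) (hzn : z ∉ Lam (⊤ : Ideal (OO n t))) :
    (N : ℂ) * (toC γ * z) ∈ Lam (⊤ : Ideal (OO n t)) ∧ toC γ * z ∉ Lam (⊤ : Ideal (OO n t)) := by
  have hγ0 : γ ≠ 0 := by
    rintro rfl
    unfold Cop at hγ
    rw [Nm_zero, isCoprime_zero_left, Int.isUnit_iff] at hγ
    obtain ⟨k, hk⟩ := hN.even
    omega
  constructor
  · have e : (N : ℂ) * (toC γ * z) = toC γ * ((N : ℂ) * z) := by ring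
    rw [e]
    exact lam_mul γ hz
  · intro h
    apply hzn
    refine (aL5 n t (sp γ) ⊤ N (Eb.ne_sp hγ0) Eb.ne_top hN.pos
      (((aO6 n t).2.2.2.1 N γ hN.pos).2 hγ)).1 z hz ?_
    exact lam_sp.2 h

/-- Composition. -/
theorem AfM.comp [SqN n t] {P : Ideal ZZ} (hP : Ab3 P) {N : ℕ} (hN : Lv N) {γ γ' : OO n t}
    {al al' r r' : Om} (h : AfM P N γ al r) (h' : AfM P N γ' al' r') :
    AfM P N (γ * γ') (al * al') (al * r' + r) := by
  have : P.IsPrime := hP.1.1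
  refine ⟨cop_mul h.cop h'.cop, h.hal.mul h'.hal, (h.hal.1.mul h'.hr).add h.hr, ?_⟩
  intro z hz hzn
  obtain ⟨h1, h2⟩ := in_mul hN h'.cop hz hzn
  have h3 := h.aff _ h1 h2
  have h4 := DI.MP.mul_left h.hal.1 (h'.aff z hz hzn)
  have h5 := h3.add h4
  have e : xO (⊤ : Ideal (OO n t)) (toC (γ * γ') * z) -
      (al * al' * xO (⊤ : Ideal (OO n t)) z + (al * r' + r)) =
      xO (⊤ : Ideal (OO n t)) (toC γ * (toC γ' * z)) -
        (al * xO (⊤ : Ideal (OO n t)) (toC γ' * z) + r) +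
      al * (xO (⊤ : Ideal (OO n t)) (toC γ' * z) -
        (al' * xO (⊤ : Ideal (OO n t)) z + r')) := by
    rw [toC_mul, mul_assoc (toC γ)]
    ring
  rw [e]
  exact h5

/-- The identity map. -/
theorem AfM.one (hD1 : S_D1) [SqN n t] {P : Ideal ZZ} (hP : Ab3 P) {N : ℕ} (hN : Lv N) {γ : OO n t}
    {al r : Om} (h : AfM P N γ al r) (hal : MP P (al - 1)) (hr : MP P r) :
    (N : OO n t) ∣ γ - 1 ∨ (N : OO n t) ∣ γ + 1 := by
  have : P.IsPrime := hP.1.1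
  have h1 : ∀ z : ℂ, (N : ℂ) * z ∈ Lam (⊤ : Ideal (OO n t)) →
      toC γ * z - z ∈ Lam (⊤ : Ideal (OO n t)) ∨ toC γ * z + z ∈ Lam (⊤ : Ideal (OO n t)) := by
    intro z hz
    by_cases hzn : z ∈ Lam (⊤ : Ideal (OO n t))
    · exact Or.inl (lam_sub (lam_mul γ hzn) hzn)
    · obtain ⟨h2, h3⟩ := in_mul hN h.cop hz hzn
      refine in_sep hD1 hP hN h2 h3 hz hzn ?_
      have h4 := ((h.aff z hz hzn).add (DI.MP.mul_right hal (in_pt hD1 hP hN hz hzn).2.2)).add hr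
      have e : xO (⊤ : Ideal (OO n t)) (toC γ * z) - xO (⊤ : Ideal (OO n t)) z =
          xO (⊤ : Ideal (OO n t)) (toC γ * z) - (al * xO (⊤ : Ideal (OO n t)) z + r) +
            (al - 1) * xO (⊤ : Ideal (OO n t)) z + r := by ring
      rw [e]
      exact h4
  obtain ⟨e, he, h2⟩ := cover h1
  obtain ⟨v, hv⟩ := lam_top.1 (h2 _ (one_div_lam ⊤ hN.pos))
  have hNc : (N : ℂ) ≠ 0 := by exact_mod_cast hN.pos.ne'
  have h3 : γ - (e : OO n t) = (N : OO n t) * v := by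
    apply toC_inj
    rw [toC_sub, toC_mul, toC_int, toC_nat, ← hv]
    field_simp
  rcases he with rfl | rfl
  · left
    refine ⟨v, ?_⟩
    rw [← h3]
    push_cast
    ring
  · right
    refine ⟨v, ?_⟩
    rw [← h3]
    push_cast
    ring

/-! ## The curve modulo `P` -/

/-- The curve modulo `P`: `W² = X³ + X`. -/
theorem in_crv (hX : S_XOm) [SqN n t] {P : Ideal ZZ} (hS : S3 n t P) {z : ℂ} (hz : Tor n t z)
    (hzn : z ∉ Lam (⊤ : Ideal (OO n t))) (hV : VP P (xO (⊤ : Ideal (OO n t)) z)) :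
    MP P (xO (⊤ : Ideal (OO n t)) z ^ 3 + xO (⊤ : Ideal (OO n t)) z - vO (⊤ : Ideal (OO n t)) z ^ 2) := by
  have : P.IsPrime := hS.ab.1.1
  have hcrv := (hX n t ⊤ g30_top).crv z hz hzn
  have m3 : MP P (3 : Om) := hS.ab.2
  have hc := hS.c1
  have vc : VP P (cO (⊤ : Ideal (OO n t))) := by
    have h := hc.vp.sub (DI.VP.one (P := P))
    rwa [add_sub_cancel_right] at h
  have v8 : VP P (8 : Om) := by exact_mod_cast DI.VP.nat (P := P) 8
  have v4 : VP P (4 : Om) := by exact_mod_cast DI.VP.nat (P := P) 4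
  have v3 : VP P (3 : Om) := m3.vp
  rw [hcrv]
  generalize xO (⊤ : Ideal (OO n t)) z = X at *
  generalize cO (⊤ : Ideal (OO n t)) = c at *
  have e : X ^ 3 + X - (4 * X ^ 3 + (1 - 8 * c) * X ^ 2 + 4 * c ^ 2 * X) =
      3 * (-(X ^ 3) - 3 * X ^ 2 - X) + (c + 1) * (8 * X ^ 2 - 4 * (c - 1) * X) := by ring
  rw [e]
  refine (DI.MP.mul_right m3 ?_).add (DI.MP.mul_right hc ?_)
  · exact (((hV.pow 3).neg).sub (v3.mul (hV.pow 2))).sub hV
  · exact (v8.mul (hV.pow 2)).sub ((v4.mul (vc.sub DI.VP.one)).mul hV)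

/-- The points of order two. -/
theorem in_two (hX : S_XOm) (hD1 : S_D1) [SqN n t] {P : Ideal ZZ} (hS : S3 n t P) {N : ℕ} (hN : Lv N)
    {z : ℂ} (hz : 2 * z ∈ Lam (⊤ : Ideal (OO n t))) (hzn : z ∉ Lam (⊤ : Ideal (OO n t))) :
    (N : ℂ) * z ∈ Lam (⊤ : Ideal (OO n t)) ∧ VP P (xO (⊤ : Ideal (OO n t)) z) ∧
      MP P (xO (⊤ : Ideal (OO n t)) z ^ 3 + xO (⊤ : Ideal (OO n t)) z) := by
  have : P.IsPrime := hS.ab.1.1
  have hNz : (N : ℂ) * z ∈ Lam (⊤ : Ideal (OO n t)) := by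
    obtain ⟨k, hk⟩ := hN.even
    have e : (N : ℂ) * z = (k : ℂ) * (2 * z) := by
      rw [hk]
      push_cast
      ring
    rw [e]
    exact lam_nat k hz
  obtain ⟨hT, -, hV⟩ := in_pt hD1 hS.ab hN hNz hzn
  have h := in_crv hX hS hT hzn hV
  rw [((hX n t ⊤ g30_top).two z hT hzn).2 hz, zero_pow two_ne_zero, sub_zero] at h
  exact ⟨hNz, hV, h⟩

private theorem half_lam [SqN n t] {v : OO n t} (hv : ¬ (2 : OO n t) ∣ v) :
    2 * (toC v * (1 / 2)) ∈ Lam (⊤ : Ideal (OO n t)) ∧ toC v * (1 / 2) ∉ Lam (⊤ : Ideal (OO n t)) := by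
  constructor
  · exact lam_top.2 ⟨v, by ring⟩
  · intro h
    obtain ⟨u, hu⟩ := lam_top.1 h
    apply hv
    refine ⟨u, toC_inj ?_⟩
    rw [toC_mul, toC_two, ← hu]
    ring

/-- The points `1/2` and `w/2` of order two. -/
theorem in_halves [SqN n t] : (2 * (1 / 2 : ℂ) ∈ Lam (⊤ : Ideal (OO n t)) ∧
    (1 / 2 : ℂ) ∉ Lam (⊤ : Ideal (OO n t))) ∧
    (2 * (toC (wI n t) * (1 / 2)) ∈ Lam (⊤ : Ideal (OO n t)) ∧
      toC (wI n t) * (1 / 2) ∉ Lam (⊤ : Ideal (OO n t))) ∧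
    toC (wI n t) * (1 / 2) - 1 / 2 ∉ Lam (⊤ : Ideal (OO n t)) ∧
    toC (wI n t) * (1 / 2) + 1 / 2 ∉ Lam (⊤ : Ideal (OO n t)) := by
  have h2 : ∀ v : OO n t, (¬ (2 : ℤ) ∣ v.re ∨ ¬ (2 : ℤ) ∣ v.im) → ¬ (2 : OO n t) ∣ v := by
    intro v hv h
    have h1 := (nat_dvd_iff 2 v).1 (by exact_mod_cast h)
    rcases hv with h3 | h3
    · exact h3 (by exact_mod_cast h1.1)
    · exact h3 (by exact_mod_cast h1.2)
  have hw : (wI n t).re = 0 ∧ (wI n t).im = 1 := ⟨rfl, rfl⟩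
  refine ⟨?_, half_lam (h2 _ (Or.inr ?_)), ?_, ?_⟩
  · have h := half_lam (n := n) (t := t) (v := 1) (h2 _ (Or.inl (by rw [re_one]; norm_num)))
    rwa [toC_one, one_mul] at h
  · rw [hw.2]
    norm_num
  · have h := (half_lam (n := n) (t := t) (v := wI n t - 1) (h2 _ (Or.inr (by
      rw [QuadraticAlgebra.im_sub, hw.2, im_one]
      norm_num)))).2
    rwa [toC_sub, toC_one, sub_mul, one_mul] at h
  · have h := (half_lam (n := n) (t := t) (v := wI n t + 1) (h2 _ (Or.inr (by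
      rw [QuadraticAlgebra.im_add, hw.2, im_one]
      norm_num)))).2
    rwa [toC_add, toC_one, add_mul, one_mul] at h

/-- AUTOMORPHISMS OF THE SUPERSINGULAR CURVE: `r ^ 3 + r = 0`, `al = ± 1`. -/
theorem in_af (hX : S_XOm) (hD1 : S_D1) [SqN n t] {P : Ideal ZZ} (hS : S3 n t P) {N : ℕ} (hN : Lv N)
    {γ : OO n t} {al r : Om} (hA : AfM P N γ al r) :
    MP P (r ^ 3 + r) ∧ (MP P (al - 1) ∨ MP P (al + 1)) := by
  have : P.IsPrime := hS.ab.1.1
  have m3 : MP P (3 : Om) := hS.ab.2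
  obtain ⟨⟨a1, a2⟩, ⟨b1, b2⟩, c1, c2⟩ := in_halves (n := n) (t := t)
  have hXb := hX n t ⊤ g30_top
  have hlt : ∀ z : ℂ, 2 * z ∈ Lam (⊤ : Ideal (OO n t)) → 2 * (toC γ * z) ∈ Lam (⊤ : Ideal (OO n t)) := by
    intro z hz
    have e : 2 * (toC γ * z) = toC γ * (2 * z) := by ring
    rw [e]
    exact lam_mul γ hz
  -- `z = 1/2`
  obtain ⟨Na, -, -⟩ := in_two hX hD1 hS hN a1 a2
  obtain ⟨-, ga'⟩ := in_mul hN hA.cop Na a2
  obtain ⟨-, vga, mga⟩ := in_two hX hD1 hS hN (hlt _ a1) ga'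
  have k1 := hA.aff _ Na a2
  rw [hXb.x2, mul_zero, zero_add] at k1
  -- `z = w/2`
  obtain ⟨Nb, vb, mb⟩ := in_two hX hD1 hS hN b1 b2
  obtain ⟨-, gb'⟩ := in_mul hN hA.cop Nb b2
  obtain ⟨-, vgb, mgb⟩ := in_two hX hD1 hS hN (hlt _ b1) gb'
  have k2 := hA.aff _ Nb b2
  -- `ξ` is a unit
  have uξ : ¬ MP P (xO (⊤ : Ideal (OO n t)) (toC (wI n t) * (1 / 2))) := by
    intro h
    rcases in_sep hD1 hS.ab hN Nb b2 Na a2 (by rw [hXb.x2, sub_zero]; exact h) with h1 | h1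
    · exact c1 h1
    · exact c2 h1
  have va := hA.hal.1
  have vr := hA.hr
  generalize xO (⊤ : Ideal (OO n t)) (toC γ * (toC (wI n t) * (1 / 2))) = Y at *
  generalize xO (⊤ : Ideal (OO n t)) (toC γ * (1 / 2)) = R at *
  generalize xO (⊤ : Ideal (OO n t)) (toC (wI n t) * (1 / 2)) = ξ at *
  have hr : MP P (r ^ 3 + r) := by
    have e : r ^ 3 + r = (R ^ 3 + R) - (R - r) * (R ^ 2 + R * r + r ^ 2 + 1) := by ring
    rw [e]
    exact mga.sub (DI.MP.mul_right k1 ((((vga.pow 2).add (vga.mul vr)).add (vr.pow 2)).add DI.VP.one))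
  refine ⟨hr, ?_⟩
  have vu : VP P (al * ξ + r) := (va.mul vb).add vr
  -- `(al ξ + r)^3 + al ξ + r`
  have h1 : MP P ((al * ξ + r) ^ 3 + (al * ξ + r)) := by
    have e : (al * ξ + r) ^ 3 + (al * ξ + r) = (Y ^ 3 + Y) -
        (Y - (al * ξ + r)) * (Y ^ 2 + Y * (al * ξ + r) + (al * ξ + r) ^ 2 + 1) := by ring
    rw [e]
    exact mgb.sub (DI.MP.mul_right k2 ((((vgb.pow 2).add (vgb.mul vu)).add (vu.pow 2)).add DI.VP.one))
  have h2 : MP P (ξ * (al * ((al - 1) * (al + 1)))) := by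
    have e : ξ * (al * ((al - 1) * (al + 1))) = al ^ 3 * (ξ ^ 3 + ξ) - ((al * ξ + r) ^ 3 + (al * ξ + r)) +
        (r ^ 3 + r) + 3 * (al * ξ * r * (al * ξ + r)) := by ring
    rw [e]
    exact (((DI.MP.mul_left (va.pow 3) mb).sub h1).add hr).add
      (DI.MP.mul_right m3 (((va.mul vb).mul vr).mul vu))
  have v1 : VP P (al - 1) := va.sub DI.VP.one
  have v2 : VP P (al + 1) := va.add DI.VP.one
  have h3 := (DI.MP.mul_cases vb (va.mul (v1.mul v2)) h2).resolve_left uξ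
  have h4 := (DI.MP.mul_cases va (v1.mul v2) h3).resolve_left hA.hal.2
  exact DI.MP.mul_cases v1 v2 h4

/-- The order of `γ` modulo `± 1`. -/
theorem in_ord (hD1 : S_D1) [SqN n t] {P : Ideal ZZ} (hS : S3 n t P) {N : ℕ} (hN : Lv N)
    {γ : OO n t} {al r : Om} (hA : AfM P N γ al r) :
    (MP P (al - 1) → (N : OO n t) ∣ γ ^ 3 - 1 ∨ (N : OO n t) ∣ γ ^ 3 + 1) ∧
    (MP P (al + 1) → (N : OO n t) ∣ γ ^ 2 - 1 ∨ (N : OO n t) ∣ γ ^ 2 + 1) := by
  have : P.IsPrime := hS.ab.1.1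
  have m3 : MP P (3 : Om) := hS.ab.2
  have va := hA.hal.1
  have vr := hA.hr
  have A2 := hA.comp hS.ab hN hA
  refine ⟨fun h => ?_, fun h => ?_⟩
  · have A3 := hA.comp hS.ab hN A2
    have h5 := A3.one hD1 hS.ab hN ?_ ?_
    · have e : γ * (γ * γ) = γ ^ 3 := by ring
      rwa [e] at h5
    · have e : al * (al * al) - 1 = (al - 1) * (al ^ 2 + al + 1) := by ring
      rw [e]
      exact DI.MP.mul_right h (((va.pow 2).add va).add DI.VP.one)
    · have e : al * (al * r + r) + r = (al - 1) * ((al + 2) * r) + 3 * r := by ring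
      rw [e]
      have v2 : VP P (2 : Om) := by simpa using DI.VP.nat (P := P) 2
      exact (DI.MP.mul_right h ((va.add v2).mul vr)).add (DI.MP.mul_right m3 vr)
  · have h5 := A2.one hD1 hS.ab hN ?_ ?_
    · rwa [← pow_two] at h5
    · have e : al * al - 1 = (al + 1) * (al - 1) := by ring
      rw [e]
      exact DI.MP.mul_right h (va.sub DI.VP.one)
    · have e : al * r + r = (al + 1) * r := by ring
      rw [e]
      exact DI.MP.mul_right h vr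

/-- A FIXED POINT. -/
theorem in_fix (hX : S_XOm) (hD1 : S_D1) [SqN n t] {P : Ideal ZZ} (hS : S3 n t P) {N : ℕ} (hN : Lv N)
    {γ : OO n t} {al r : Om} (hA : AfM P N γ al r) {z : ℂ} (hz : (N : ℂ) * z ∈ Lam (⊤ : Ideal (OO n t)))
    (h2 : 2 * z ∉ Lam (⊤ : Ideal (OO n t)))
    (hf : toC γ * z - z ∈ Lam (⊤ : Ideal (OO n t)) ∨ toC γ * z + z ∈ Lam (⊤ : Ideal (OO n t))) :
    (N : OO n t) ∣ γ - 1 ∨ (N : OO n t) ∣ γ + 1 := by
  have : P.IsPrime := hS.ab.1.1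
  have m3 : MP P (3 : Om) := hS.ab.2
  have h1 : z ∉ Lam (⊤ : Ideal (OO n t)) := fun h => h2 (by exact_mod_cast lam_nat 2 h)
  have hXb := hX n t ⊤ g30_top
  have k := hA.aff z hz h1
  rw [hXb.cng' (toC γ * z) z hf] at k
  obtain ⟨hT, -, vX⟩ := in_pt hD1 hS.ab hN hz h1
  have hNz2 : (N : ℂ) * (2 * z) ∈ Lam (⊤ : Ideal (OO n t)) := by
    have e : (N : ℂ) * (2 * z) = ((2 : ℕ) : ℂ) * ((N : ℂ) * z) := by
      push_cast
      ring
    rw [e]
    exact lam_nat 2 hz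
  obtain ⟨-, -, vX2⟩ := in_pt hD1 hS.ab hN hNz2 h2
  obtain ⟨hr, hal⟩ := in_af hX hD1 hS hN hA
  have va := hA.hal.1
  have vr := hA.hr
  rcases hal with h | h
  · refine hA.one hD1 hS.ab hN h ?_
    have e : r = -(xO (⊤ : Ideal (OO n t)) z - (al * xO (⊤ : Ideal (OO n t)) z + r)) -
        (al - 1) * xO (⊤ : Ideal (OO n t)) z := by ring
    rw [e]
    exact k.neg.sub (DI.MP.mul_right h vX)
  · exfalso
    have hcr := in_crv hX hS hT h1 vX
    have hd := hXb.dup z hT h2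
    have hc := hS.c1
    have vc : VP P (cO (⊤ : Ideal (OO n t))) := by
      have h := hc.vp.sub (DI.VP.one (P := P))
      rwa [add_sub_cancel_right] at h
    have vv : VP P (vO (⊤ : Ideal (OO n t)) z ^ 2) := by
      have e : vO (⊤ : Ideal (OO n t)) z ^ 2 = (xO (⊤ : Ideal (OO n t)) z ^ 3 + xO (⊤ : Ideal (OO n t)) z) -
        (xO (⊤ : Ideal (OO n t)) z ^ 3 + xO (⊤ : Ideal (OO n t)) z - vO (⊤ : Ideal (OO n t)) z ^ 2) := by ring
      rw [e]
      exact ((vX.pow 3).add vX).sub hcr.vp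
    have v2 : VP P (2 : Om) := by simpa using DI.VP.nat (P := P) 2
    generalize xO (⊤ : Ideal (OO n t)) (2 * z) = Y at *
    generalize xO (⊤ : Ideal (OO n t)) z = X at *
    generalize vO (⊤ : Ideal (OO n t)) z = W at *
    generalize cO (⊤ : Ideal (OO n t)) = c at *
    -- `X = - r`
    have hXr : MP P (X + r) := by
      have e : X + r = 3 * X - (X - (al * X + r)) - (al + 1) * X := by ring
      rw [e]
      exact ((DI.MP.mul_right m3 vX).sub k).sub (DI.MP.mul_right h vX)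
    have hX3 : MP P (X ^ 3 + X) := by
      have e : X ^ 3 + X = (X + r) * (X ^ 2 - X * r + r ^ 2 + 1) - (r ^ 3 + r) := by ring
      rw [e]
      exact (DI.MP.mul_right hXr ((((vX.pow 2).sub (vX.mul vr)).add (vr.pow 2)).add DI.VP.one)).sub hr
    have hW : MP P (W ^ 2) := by
      have e : W ^ 2 = (X ^ 3 + X) - (X ^ 3 + X - W ^ 2) := by ring
      rw [e]
      exact hX3.sub hcr
    -- `(X² - c²)²`
    have h5 : MP P ((X ^ 2 - c ^ 2) ^ 2) := by
      rw [← hd]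
      exact DI.MP.mul_left vX2 hW
    have h6 : MP P (X ^ 2 - 1) := by
      refine DI.MP.of_pow (n := 2) ?_
      have e : (X ^ 2 - 1) ^ 2 = (X ^ 2 - c ^ 2) ^ 2 + (c + 1) * ((c - 1) * (2 * X ^ 2 - c ^ 2 - 1)) := by
        ring
      rw [e]
      exact h5.add (DI.MP.mul_right hc ((vc.sub DI.VP.one).mul
        (((v2.mul (vX.pow 2)).sub (vc.pow 2)).sub DI.VP.one)))
    have h7 : MP P (X * 2) := by
      have e : X * 2 = (X ^ 3 + X) - X * (X ^ 2 - 1) := by ring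
      rw [e]
      exact hX3.sub (DI.MP.mul_left vX h6)
    have h8 : MP P X := (DI.MP.mul_cases vX v2 h7).resolve_right hS.ab.not_two
    have h9 : MP P (1 : Om) := by
      have e : (1 : Om) = X * X - (X ^ 2 - 1) := by ring
      rw [e]
      exact (DI.MP.mul_left vX h8).sub h6
    exact DI.MP.one_not h9

/-- A fixed point of order a prime ideal of degree one. -/
theorem in_fixq (hX : S_XOm) (hD1 : S_D1) [SqN n t] {P : Ideal ZZ} (hS : S3 n t P) {N : ℕ} (hN : Lv N)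
    {γ : OO n t} {al r : Om} (hA : AfM P N γ al r) {q : Ideal (OO n t)} {l : ℕ} (hq : Deg1 q l)
    (hlN : l ∣ N) (hl30 : l.Coprime 30) (hγ : γ - 1 ∈ q ∨ γ + 1 ∈ q) :
    (N : OO n t) ∣ γ - 1 ∨ (N : OO n t) ∣ γ + 1 := by
  obtain ⟨d1, -, -, -, -⟩ := aDq n t q l hq
  obtain ⟨⟨g, hg, hg'⟩, hL, -⟩ := aL3 n t q ⊤ hq.2.1 Eb.ne_top
  obtain ⟨hv, -⟩ := hL g hg hg'
  have hm : ∀ m : ℕ, (m : ℂ) * g ∈ Lam (⊤ : Ideal (OO n t)) ↔ l ∣ m := by
    intro m
    rw [← toC_nat (n := n) (t := t) m, hv]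
    have h := d1 (m : ℤ)
    rw [Int.cast_natCast] at h
    rw [h]
    exact Int.natCast_dvd_natCast
  have hl1 : ¬ l ∣ 1 := by
    intro h
    exact hq.2.2.1.one_lt.ne' (Nat.dvd_one.1 h)
  have hl2 : ¬ l ∣ 2 := by
    intro h
    exact hl1 (hl30 ▸ Nat.dvd_gcd dvd_rfl (h.trans (by norm_num)))
  have e2 : 2 * g ∉ Lam (⊤ : Ideal (OO n t)) := by
    intro h
    apply hl2
    rw [← hm]
    exact_mod_cast h
  refine in_fix hX hD1 hS hN hA ((hm N).2 hlN) e2 ?_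
  rcases hγ with h | h
  · left
    have h' := (hv (γ - 1)).2 h
    rw [toC_sub, toC_one] at h'
    have e : toC γ * g - g = (toC γ - 1) * g := by ring
    rwa [e]
  · right
    have h' := (hv (γ + 1)).2 h
    rw [toC_add, toC_one] at h'
    have e : toC γ * g + g = (toC γ + 1) * g := by ring
    rwa [e]

end Pool.Agent.DM
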