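import Pool.Agent.Lib.DM.E.InA

/-!
# Theorem DM, part E: inertia above `3`: principal classes (author helper39)

Inertia elements are affine maps (`in_aff`); principal classes for `n ≠ 1` (`in_pri`), the fields `ℚ(√-3)` (`in_pr3`) and `ℚ(i)` (`in_pr4`).
-/

set_option autoImplicit false

open scoped Pointwise nonZeroDivisors

noncomputable section

namespace Pool.Agent.DM

open Pool.Agent.MuZ Pool.Agent.FW NumberField IsDedekindDomain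
open Pool.Agent.DI (io ofC io_inj exists_io io_ofC ofC_io VP MP UP TP ex)
open Pool.Agent.DN

variable {n t : ℕ}

private theorem unit_of [SqN n t] {P : Ideal ZZ} (hP : Ab3 P) {γ : OO n t} (h : Cop γ 3) :
    UP P (toO γ) := by
  have := hP.1.1
  refine ⟨toO_VP γ, fun hm => ?_⟩
  have h1 : MP P ((Nm γ : ℤ) : Om) := by
    have e : ((Nm γ : ℤ) : Om) = toO γ * toO (cjO γ) := by
      rw [← toO_mul, mul_cjO, toO_int]
    rw [e]
    exact DI.MP.mul_right hm (toO_VP _)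
  obtain ⟨a, b, hab⟩ := h
  have h2 : MP P (1 : Om) := by
    have e : (1 : Om) = (a : Om) * ((Nm γ : ℤ) : Om) + (b : Om) * 3 := by
      have := congrArg (fun x : ℤ => (x : Om)) hab
      push_cast at this
      exact this.symm
    rw [e]
    exact (DI.MP.mul_left (DI.VP.int a) h1).add (DI.MP.mul_left (DI.VP.int b) hP.2)
  exact DI.MP.one_not h2

private theorem alg {ρ g A B R T : Om} (g0 : g ≠ 0) (h : ρ ^ 2 * T = g ^ 2 * (A - R)) :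
    A - ((ρ / g) ^ 2 * B + R) = (ρ / g) ^ 2 * (T - B) := by
  field_simp
  linear_combination (-1 : Om) * h

private theorem alg' {g A B R : Om} (g0 : g ≠ 0) (h : 1 ^ 2 * B = g ^ 2 * (A - R)) :
    A - ((g ^ 2)⁻¹ * B + R) = 0 := by
  field_simp
  linear_combination (-1 : Om) * h

/-- Inertia elements are affine maps. -/
theorem in_aff (hX : S_XOm) (hD1 : S_D1) (hE10 : S_E10) [SqN n t] {P : Ideal ZZ} (hP : Ab3 P)
    {τ : Gal(Om/ℚ)} (hτ : τ ∈ P.inertia Gal(Om/ℚ)) {N : ℕ} (hN : Lv N) (h20 : 20 ∣ N) {γ : OO n t}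
    (hγ : γ ≠ 0) (hψ : Psi τ (3 * N) (sp γ)) : ∃ al r : Om, AfM P N γ al r := by
  have := hP.1.1
  have h3N : 0 < 3 * N := Nat.mul_pos (by norm_num) hN.pos
  obtain ⟨-, o2, -, o4, -⟩ := aO6 n t
  have p3N : PrI (sp γ) (3 * N) := Eb.psi_pri hψ
  have cN : Cop γ N := (o4 N γ hN.pos).1 (Eb.pri_dvd p3N ⟨3, by ring⟩)
  have c30 : Cop γ 30 := (o4 30 γ (by norm_num)).1 (Eb.pri_dvd p3N (by
    obtain ⟨k, rfl⟩ := h20
    exact ⟨2 * k, by ring⟩))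
  have hXb := hX n t (⊤ : Ideal (OO n t)) g30_top
  have h60 : 60 ∣ 3 * N := by
    obtain ⟨k, rfl⟩ := h20
    exact ⟨k, by ring⟩
  obtain ⟨-, hE, -⟩ := hE10 n t τ (3 * N) (sp γ) h3N h60 hψ
  obtain ⟨-, -, -, hxx, -⟩ := hE ⊤ g30_top
  have g0 : toO γ ≠ 0 := toO_ne hγ
  have hNN : ∀ z : ℂ, (N : ℂ) * z ∈ Lam (⊤ : Ideal (OO n t)) →
      ((3 * N : ℕ) : ℂ) * z ∈ Lam (⊤ : Ideal (OO n t)) := by
    intro z hz
    have e : ((3 * N : ℕ) : ℂ) * z = ((3 : ℕ) : ℂ) * ((N : ℂ) * z) := by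
      push_cast
      ring
    rw [e]
    exact lam_nat 3 hz
  -- the relation
  have hrel : ∀ z : ℂ, (N : ℂ) * z ∈ Lam (⊤ : Ideal (OO n t)) → z ∉ Lam (⊤ : Ideal (OO n t)) →
      rO (⊤ : Ideal (OO n t)) (sp γ) ^ 2 * τ (xO (⊤ : Ideal (OO n t)) z) =
        toO γ ^ 2 * (xO (⊤ : Ideal (OO n t)) (toC γ * z) - xO (⊤ : Ideal (OO n t)) (toC γ * (1 / 2))) := by
    intro z hz hz'
    obtain ⟨zt, -, -⟩ := in_pt hD1 hP hN hz hz'
    have e1 := (hXb.hmg γ hγ c30 z zt).1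
    have e2 := (hxx z (hNN z hz)).1
    rw [Ideal.mul_top] at e1 e2
    rw [← e2] at e1
    exact e1
  -- the points `1/2`, `w/2`
  obtain ⟨⟨a1, a2⟩, ⟨b1, b2⟩, c1, c2⟩ := in_halves (n := n) (t := t)
  have hN2 : ∀ z : ℂ, 2 * z ∈ Lam (⊤ : Ideal (OO n t)) → (N : ℂ) * z ∈ Lam (⊤ : Ideal (OO n t)) := by
    intro z hz
    obtain ⟨k, hk⟩ := hN.even
    have e : (N : ℂ) * z = (k : ℂ) * (2 * z) := by
      rw [hk]
      push_cast
      ring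
    rw [e]
    exact lam_nat k hz
  have Na := hN2 _ a1
  have Nb := hN2 _ b1
  obtain ⟨ga, ga'⟩ := in_mul hN cN Na a2
  obtain ⟨gb, gb'⟩ := in_mul hN cN Nb b2
  obtain ⟨-, -, vR⟩ := in_pt hD1 hP hN ga ga'
  obtain ⟨-, -, vY⟩ := in_pt hD1 hP hN gb gb'
  obtain ⟨-, -, vξ⟩ := in_pt hD1 hP hN Nb b2
  -- units
  have uξ : UP P (xO (⊤ : Ideal (OO n t)) (toC (wI n t) * (1 / 2))) := by
    refine ⟨vξ, fun h => ?_⟩
    rcases in_sep hD1 hP hN Nb b2 Na a2 (by rw [hXb.x2, sub_zero]; exact h) with h1 | h1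
    · exact c1 h1
    · exact c2 h1
  have uD : UP P (xO (⊤ : Ideal (OO n t)) (toC γ * (toC (wI n t) * (1 / 2))) -
      xO (⊤ : Ideal (OO n t)) (toC γ * (1 / 2))) := by
    refine ⟨vY.sub vR, fun h => ?_⟩
    have h5 : ∀ y : ℂ, 2 * y ∈ Lam (⊤ : Ideal (OO n t)) → toC γ * y ∈ Lam (⊤ : Ideal (OO n t)) →
        y ∈ Lam (⊤ : Ideal (OO n t)) := by
      intro y hy hy'
      by_contra hn
      exact (in_mul hN cN (hN2 y hy) hn).2 hy'
    rcases in_sep hD1 hP hN gb gb' ga ga' h with h1 | h1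
    · refine c1 (h5 _ ?_ ?_)
      · rw [mul_sub]
        exact lam_sub b1 a1
      · rw [mul_sub]
        exact h1
    · refine c2 (h5 _ ?_ ?_)
      · rw [mul_add]
        exact lam_add b1 a1
      · rw [mul_add]
        exact h1
  have uτ : UP P (τ (xO (⊤ : Ideal (OO n t)) (toC (wI n t) * (1 / 2)))) :=
    DI.UP.congr uξ (DI.VP.inertia hτ vξ)
  have ual : UP P ((rO (⊤ : Ideal (OO n t)) (sp γ) / toO γ) ^ 2) := by
    have h := hrel _ Nb b2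
    have e : (rO (⊤ : Ideal (OO n t)) (sp γ) / toO γ) ^ 2 =
        (xO (⊤ : Ideal (OO n t)) (toC γ * (toC (wI n t) * (1 / 2))) -
          xO (⊤ : Ideal (OO n t)) (toC γ * (1 / 2))) *
        (τ (xO (⊤ : Ideal (OO n t)) (toC (wI n t) * (1 / 2))))⁻¹ := by
      rw [div_pow, div_eq_iff (pow_ne_zero 2 g0), mul_assoc, mul_comm (τ _)⁻¹, ← mul_assoc,
        eq_mul_inv_iff_mul_eq₀ uτ.ne_zero, h]
      ring
    rw [e]
    exact uD.mul uτ.inv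
  refine ⟨(rO (⊤ : Ideal (OO n t)) (sp γ) / toO γ) ^ 2,
    xO (⊤ : Ideal (OO n t)) (toC γ * (1 / 2)), cN, ual, vR, ?_⟩
  intro z hz hz'
  obtain ⟨-, -, zv⟩ := in_pt hD1 hP hN hz hz'
  rw [alg g0 (hrel z hz hz')]
  exact DI.MP.mul_left ual.1 (DI.VP.inertia hτ zv)

/-- The unit `w` of `ℤ[i]`, `ℤ[ρ]`. -/
theorem in_w (hX : S_XOm) (hD1 : S_D1) (hR1 : S_R1) {t : ℕ} [SqN 1 t] {P : Ideal ZZ} (hP : Ab3 P)
    {N : ℕ} (hN : Lv N) : AfM P N (wI 1 t) ((toO (wI 1 t) ^ 2)⁻¹)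
      (xO (⊤ : Ideal (OO 1 t)) (toC (wI 1 t) * (1 / 2))) := by
  have := hP.1.1
  have nw : Nm (wI 1 t) = 1 := by
    simp [wI, Nm]
  have cw : ∀ j : ℕ, Cop (wI 1 t) j := fun j => by
    unfold Cop
    rw [nw]
    exact isCoprime_one_left
  have w0 : wI 1 t ≠ 0 := by
    intro h
    rw [h, Nm_zero] at nw
    exact zero_ne_one nw
  have hw : sp (wI 1 t) = (⊤ : Ideal (OO 1 t)) := by
    refine Ideal.span_singleton_eq_top.2 (IsUnit.of_mul_eq_one (cjO (wI 1 t)) ?_)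
    rw [mul_cjO, nw, Int.cast_one]
  have hXb := hX 1 t (⊤ : Ideal (OO 1 t)) g30_top
  have hrr : rO (⊤ : Ideal (OO 1 t)) (⊤ : Ideal (OO 1 t)) = 1 := by
    obtain ⟨-, -, -, h⟩ := (hR1 1 t).1 (⊤ : Ideal (OO 1 t)) g30_top
    obtain ⟨h1, h0⟩ := h (⊤ : Ideal (OO 1 t)) g30_top
    have hf : fr (⊤ : Ideal (OO 1 t)) ≠ 0 := by
      intro hf
      rw [hf, div_zero] at h1
      exact h0 (io_inj (by rw [h1, map_zero]))
    apply io_inj
    rw [h1, div_self hf, map_one]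
  obtain ⟨⟨a1, a2⟩, -, -, -⟩ := in_halves (n := 1) (t := t)
  have Na : (N : ℂ) * (1 / 2) ∈ Lam (⊤ : Ideal (OO 1 t)) := by
    obtain ⟨k, hk⟩ := hN.even
    have e : (N : ℂ) * (1 / 2) = (k : ℂ) * (2 * (1 / 2)) := by
      rw [hk]
      push_cast
      ring
    rw [e]
    exact lam_nat k a1
  obtain ⟨t3, t4⟩ := in_mul hN (cw N) Na a2
  obtain ⟨-, -, vr⟩ := in_pt hD1 hP hN t3 t4
  refine ⟨cw N, ((unit_of hP (cw 3)).pow 2).inv, vr, ?_⟩
  intro z hz hz'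
  obtain ⟨zt, -, zv⟩ := in_pt hD1 hP hN hz hz'
  have e1 := (hXb.hmg (wI 1 t) w0 (cw 30) z zt).1
  rw [Ideal.mul_top, hw, hrr] at e1
  rw [alg' (toO_ne w0) e1]
  exact DI.MP.zero

/-- Multiples of `N` are in `q`. -/
private theorem mem_q {n t : ℕ} [SqN n t] {q : Ideal (OO n t)} {l N : ℕ} (hq : Deg1 q l)
    (hl : l ∣ N) {x : OO n t} (h : (N : OO n t) ∣ x) : x ∈ q := by
  have h1 : ((N : ℤ) : OO n t) ∈ q := ((aDq n t q l hq).1 (N : ℤ)).2 (by exact_mod_cast hl)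
  obtain ⟨c, rfl⟩ := h
  rw [Int.cast_natCast] at h1
  exact q.mul_mem_right c h1

/-- The ideal of an element congruent to `± 1`. -/
private theorem ray_pm {n t : ℕ} [SqN n t] {N : ℕ} {γ : OO n t} (hγ : γ ≠ 0)
    (h : (N : OO n t) ∣ γ - 1 ∨ (N : OO n t) ∣ γ + 1) : Ray N (sp γ) (⊤ : Ideal (OO n t)) := by
  rcases h with h | h
  · have h1 : (N : OO n t) ∣ 1 - γ := by
      have h2 := h.neg_right
      rwa [neg_sub] at h2
    refine ⟨1, γ, one_ne_zero, hγ, cop_one N, cop_congr h1 (cop_one N), h1, ?_⟩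
    rw [Ideal.mul_top, ← sp_mul', one_mul]
  · have h1 : (N : OO n t) ∣ 1 - -γ := by
      have e : 1 - -γ = γ + 1 := by ring
      rwa [e]
    refine ⟨1, -γ, one_ne_zero, neg_ne_zero.2 hγ, cop_one N, cop_congr h1 (cop_one N), h1, ?_⟩
    rw [Ideal.mul_top, ← sp_mul', one_mul]
    exact (Ideal.span_singleton_neg γ).symm

/-- A smaller modulus. -/
theorem ray_dvd {n t : ℕ} [SqN n t] {N M : ℕ} {a a' : Ideal (OO n t)} (h : Ray N a a') (hM : M ∣ N) :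
    Ray M a a' := by
  obtain ⟨α, α', h1, h2, h3, h4, h5, h6⟩ := h
  exact ⟨α, α', h1, h2, cop_dvd h3 hM, cop_dvd h4 hM, (Nat.cast_dvd_cast hM).trans h5, h6⟩

private theorem three_q {n t : ℕ} [SqN n t] {q : Ideal (OO n t)} {l : ℕ} (hq : Deg1 q l) (hl3 : l % 3 = 2)
    {γ : OO n t} (h : γ ^ 3 - 1 ∈ q ∨ γ ^ 3 + 1 ∈ q) : γ - 1 ∈ q ∨ γ + 1 ∈ q := by
  have d3 := (aDq n t q l hq).2.2.1 hl3
  rcases h with h | h
  · exact Or.inl (d3 γ h)
  · right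
    have h1 : (-γ) ^ 3 - 1 ∈ q := by
      have e : (-γ) ^ 3 - 1 = -(γ ^ 3 + 1) := by ring
      rw [e]
      exact q.neg_mem h
    have h2 := q.neg_mem (d3 (-γ) h1)
    have e : -(-γ - 1) = γ + 1 := by ring
    rwa [e] at h2

private theorem two_q {n t : ℕ} [SqN n t] {q : Ideal (OO n t)} {l : ℕ} (hq : Deg1 q l) (hl4 : l % 4 = 3)
    {γ : OO n t} (h : γ ^ 2 - 1 ∈ q ∨ γ ^ 2 + 1 ∈ q) : γ - 1 ∈ q ∨ γ + 1 ∈ q := by
  rcases h with h | h
  · have h1 : (γ - 1) * (γ + 1) ∈ q := by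
      have e : (γ - 1) * (γ + 1) = γ ^ 2 - 1 := by ring
      rw [e]
      exact h
    exact hq.1.mem_or_mem h1
  · exact absurd h ((aDq n t q l hq).2.1 hl4 γ)

/-- An ideal at the level `3 N M` over `τ`. -/
private theorem up_lv (hE1 : DS.S_E1) [SqN n t] {τ : Gal(Om/ℚ)} (hτ : τ ∈ GK n t) {N M : ℕ}
    (hN : 0 < N) (hM : 0 < M) (h5 : 5 ∣ N) {a : Ideal (OO n t)} (hψ : Psi τ (3 * N) a) :
    ∃ a' : Ideal (OO n t), Psi τ (3 * (N * M)) a' ∧ Ray N a' a := by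
  have h15 : 15 ∣ 3 * N := by
    obtain ⟨k, rfl⟩ := h5
    exact ⟨k, by ring⟩
  have h15' : 15 ∣ 3 * (N * M) := by
    rw [← mul_assoc]
    exact h15.mul_right M
  obtain ⟨a', ha'⟩ := (hE1 n t (3 * (N * M)) (by positivity) h15').1 τ hτ
  have h1 : Psi τ (3 * N) a' := Eb.psi_level ha' ⟨M, by ring⟩
  exact ⟨a', ha', ray_dvd ((hE1 n t (3 * N) (by positivity) h15).2.1 τ a' a h1 hψ) ⟨3, by ring⟩⟩

private theorem lv_mul {N l : ℕ} (hN : Lv N) (hl : l.Coprime 30) (hl0 : 0 < l) : Lv (N * l) :=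
  ⟨Nat.mul_pos hN.pos hl0, hN.even.mul_right l,
    Nat.Coprime.mul_left hN.cop (Nat.Coprime.coprime_dvd_right (by norm_num) hl)⟩

/-- **PRINCIPAL CLASSES**, `n ≠ 1`. -/
theorem in_pri (hX : S_XOm) (hD1 : S_D1) (hE1 : DS.S_E1) (hE10 : S_E10) [SqN n t] (hn1 : n ≠ 1)
    {P : Ideal ZZ} (hS : S3 n t P) {τ : Gal(Om/ℚ)} (hτ : τ ∈ GK n t) (hi : τ ∈ P.inertia Gal(Om/ℚ))
    {N : ℕ} (hN : Lv N) (h20 : 20 ∣ N) {a : Ideal (OO n t)} (hψ : Psi τ (3 * N) a) (hpr : Prc a) :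
    Ray N a (⊤ : Ideal (OO n t)) := by
  have hN0 := hN.pos
  obtain ⟨q₁, l₁, hq₁, hl₁, h43⟩ := (DS.bAux n t (30 * N) (by positivity)).1 (fun h => hn1 h.1)
  have hl₁0 : 0 < l₁ := by omega
  obtain ⟨q₂, l₂, hq₂, hl₂, h32⟩ := (DS.bAux n t (30 * N * l₁) (by positivity)).2 (fun h => hn1 h.1)
  have hl₂0 : 0 < l₂ := by omega
  have hl₁30 : l₁.Coprime 30 := Nat.Coprime.coprime_dvd_right ⟨N, rfl⟩ hl₁
  have hl₂30 : l₂.Coprime 30 := Nat.Coprime.coprime_dvd_right ⟨N * l₁, by ring⟩ hl₂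
  have h5N : 5 ∣ N := Dvd.dvd.trans (by norm_num) h20
  obtain ⟨a', ha', hray⟩ := up_lv (M := l₁ * l₂) hE1 hτ hN0 (by positivity) h5N hψ
  obtain ⟨N', hN'⟩ : ∃ N', N' = N * (l₁ * l₂) := ⟨_, rfl⟩
  have hl₁N' : l₁ ∣ N' := ⟨N * l₂, by rw [hN']; ring⟩
  have hl₂N' : l₂ ∣ N' := ⟨N * l₁, by rw [hN']; ring⟩
  have hNN' : N ∣ N' := ⟨l₁ * l₂, hN'⟩
  have hLv : Lv N' := by
    have h := lv_mul (lv_mul hN hl₁30 hl₁0) hl₂30 hl₂0
    rw [hN', ← mul_assoc]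
    exact h
  rw [← hN'] at ha'
  obtain ⟨γ, hγ, rfl⟩ : Prc a' := by
    obtain ⟨α, α', hα, hα', -, -, -, h⟩ := hray
    exact prc_of hα hα' h hpr
  obtain ⟨al, r, hA⟩ := in_aff hX hD1 hE10 hS.ab hi hLv (h20.trans hNN') hγ ha'
  obtain ⟨g1, g2⟩ := in_ord hD1 hS hLv hA
  have hmain : (N' : OO n t) ∣ γ - 1 ∨ (N' : OO n t) ∣ γ + 1 := by
    rcases (in_af hX hD1 hS hLv hA).2 with hal | hal
    · exact in_fixq hX hD1 hS hLv hA hq₂ hl₂N' hl₂30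
        (three_q hq₂ h32 ((g1 hal).imp (mem_q hq₂ hl₂N') (mem_q hq₂ hl₂N')))
    · exact in_fixq hX hD1 hS hLv hA hq₁ hl₁N' hl₁30
        (two_q hq₁ h43 ((g2 hal).imp (mem_q hq₁ hl₁N') (mem_q hq₁ hl₁N')))
  have hNO : (N : OO n t) ∣ (N' : OO n t) := Nat.cast_dvd_cast hNN'
  obtain ⟨-, o2, o3, -⟩ := aO7 n t N hN0
  exact o3 _ _ _ (o2 _ _ hray) (ray_pm hγ (hmain.imp hNO.trans hNO.trans))

/-- The unit `w` does not change the ideal. -/
private theorem sp_w {t : ℕ} [SqN 1 t] (γ : OO 1 t) : sp (γ * wI 1 t) = sp γ := by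
  have hu : IsUnit (wI 1 t) := by
    have h1 : Nm (wI 1 t) = 1 := by
      simp [Nm, wI]
    have h2 := mul_cjO (wI 1 t)
    rw [h1, Int.cast_one] at h2
    exact IsUnit.of_mul_eq_one _ h2
  unfold sp
  rw [Ideal.span_singleton_mul_right_unit hu]

private theorem ne_of_sp {t : ℕ} [SqN 1 t] {γ γ' : OO 1 t} (h : sp γ' = sp γ) (hγ : γ ≠ 0) : γ' ≠ 0 := by
  rintro rfl
  apply hγ
  rw [← Ideal.span_singleton_eq_bot]
  change sp γ = ⊥
  rw [← h]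
  exact Ideal.span_singleton_eq_bot.2 rfl

/-- THE FIELD `ℚ(√-3)`. -/
theorem in_pr3 (hX : S_XOm) (hR1 : S_R1) (hD1 : S_D1) (hE1 : DS.S_E1) (hE10 : S_E10) [Ine 1 1]
    {P : Ideal ZZ} (hS : S3 1 1 P) {τ : Gal(Om/ℚ)} (hτ : τ ∈ GK 1 1) (hi : τ ∈ P.inertia Gal(Om/ℚ))
    {N : ℕ} (hN : Lv N) (h20 : 20 ∣ N) {a : Ideal (OO 1 1)} (hψ : Psi τ (3 * N) a) :
    Ray N a (⊤ : Ideal (OO 1 1)) := by
  have := hS.ab.1.1
  have hN0 := hN.pos
  obtain ⟨q, l, hq, hl, h43⟩ := (DS.bAux 1 1 (30 * N) (by positivity)).1 (by omega)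
  have hl0 : 0 < l := by omega
  have hl30 : l.Coprime 30 := Nat.Coprime.coprime_dvd_right ⟨N, rfl⟩ hl
  have h5N : 5 ∣ N := Dvd.dvd.trans (by norm_num) h20
  obtain ⟨a', ha', hray⟩ := up_lv (M := l) hE1 hτ hN0 hl0 h5N hψ
  have hLv : Lv (N * l) := lv_mul hN hl30 hl0
  have hNO : (N : OO 1 1) ∣ ((N * l : ℕ) : OO 1 1) := Nat.cast_dvd_cast ⟨l, rfl⟩
  obtain ⟨γ, hγ, rfl⟩ := aEis 1 a' ha'.ne
  obtain ⟨al, r, hA⟩ := in_aff hX hD1 hE10 hS.ab hi hLv (h20.mul_right l) hγ ha'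
  obtain ⟨-, o2, o3, -⟩ := aO7 1 1 N hN0
  have main : ∀ γ' : OO 1 1, sp γ' = sp γ →
      (((N * l : ℕ) : OO 1 1) ∣ γ' - 1 ∨ ((N * l : ℕ) : OO 1 1) ∣ γ' + 1) →
      Ray N a (⊤ : Ideal (OO 1 1)) := by
    intro γ' hsp h
    refine o3 _ _ _ (o2 _ _ hray) ?_
    rw [← hsp]
    exact ray_pm (ne_of_sp hsp hγ) (h.imp hNO.trans hNO.trans)
  obtain ⟨hr, hal⟩ := in_af hX hD1 hS hLv hA
  rcases hal with hal | hal
  · -- `al = 1`: multiply by a power of `w`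
    have hw := in_w hX hD1 hR1 (t := 1) hS.ab hLv
    obtain ⟨hrw, -⟩ := in_af hX hD1 hS hLv hw
    set ω := toO (wI 1 1) with hω
    have hW2 : ω ^ 2 = ω - 1 := by
      rw [hω, toO_wI, wO_sq, Nat.cast_one, one_mul]
    have hinv : (ω ^ 2)⁻¹ = -ω := by
      refine inv_eq_of_mul_eq_one_right ?_
      linear_combination (-ω - 1) * hW2
    have hVω : VP P ω := toO_VP _
    have m3 : MP P (3 : Om) := hS.ab.2
    have hω1 : MP P (ω + 1) := by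
      refine DI.MP.of_pow (n := 2) ?_
      have e : (ω + 1) ^ 2 = 3 * ω := by linear_combination hW2
      rw [e]
      exact DI.MP.mul_right m3 hVω
    obtain ⟨⟨a1, a2⟩, ⟨b1, b2⟩, c1, c2⟩ := in_halves (n := 1) (t := 1)
    have hXb := hX 1 1 ⊤ g30_top
    -- `rw` is a unit
    have hρ : ¬ MP P (xO (⊤ : Ideal (OO 1 1)) (toC (wI 1 1) * (1 / 2))) := by
      intro h
      obtain ⟨Na, -, -⟩ := in_two hX hD1 hS hLv a1 a2
      obtain ⟨Nb, -, -⟩ := in_two hX hD1 hS hLv b1 b2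
      rcases in_sep hD1 hS.ab hLv Nb b2 Na a2 (by rw [hXb.x2, sub_zero]; exact h) with h1 | h1
      · exact c1 h1
      · exact c2 h1
    rw [hinv] at hw
    have vρ := hw.hr
    have vr := hA.hr
    have va := hA.hal.1
    set ρ := xO (⊤ : Ideal (OO 1 1)) (toC (wI 1 1) * (1 / 2))
    have hρ2 : MP P (ρ ^ 2 + 1) := by
      have h5 : MP P (ρ * (ρ ^ 2 + 1)) := by
        have e : ρ * (ρ ^ 2 + 1) = ρ ^ 3 + ρ := by ring
        rw [e]
        exact hrw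
      exact (DI.MP.mul_cases vρ ((vρ.pow 2).add DI.VP.one) h5).resolve_left hρ
    by_cases hr0 : MP P r
    · exact main γ rfl (hA.one hD1 hS.ab hLv hal hr0)
    · have hr2 : MP P (r ^ 2 + 1) := by
        have h5 : MP P (r * (r ^ 2 + 1)) := by
          have e : r * (r ^ 2 + 1) = r ^ 3 + r := by ring
          rw [e]
          exact hr
        exact (DI.MP.mul_cases vr ((vr.pow 2).add DI.VP.one) h5).resolve_left hr0
      have h6 : MP P ((ρ + r) * (ρ - r)) := by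
        have e : (ρ + r) * (ρ - r) = (ρ ^ 2 + 1) - (r ^ 2 + 1) := by ring
        rw [e]
        exact hρ2.sub hr2
      have A1 := hA.comp hS.ab hLv hw
      have hal1 : MP P (al * -ω - 1) := by
        have e : al * -ω - 1 = (al - 1) * -ω - (ω + 1) := by ring
        rw [e]
        exact (DI.MP.mul_right hal hVω.neg).sub hω1
      rcases DI.MP.mul_cases (vρ.add vr) (vρ.sub vr) h6 with h7 | h7
      · refine main (γ * wI 1 1) (sp_w γ) (A1.one hD1 hS.ab hLv hal1 ?_)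
        have e : al * ρ + r = (al - 1) * ρ + (ρ + r) := by ring
        rw [e]
        exact (DI.MP.mul_right hal vρ).add h7
      · have A2 := A1.comp hS.ab hLv hw
        refine main (γ * wI 1 1 * wI 1 1) ((sp_w _).trans (sp_w γ)) (A2.one hD1 hS.ab hLv ?_ ?_)
        · have e : al * -ω * -ω - 1 = (al * -ω - 1) * -ω - (ω + 1) := by ring
          rw [e]
          exact (DI.MP.mul_right hal1 hVω.neg).sub hω1
        · have e : al * -ω * ρ + (al * ρ + r) =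
              (al * -ω - 1) * ρ + (al - 1) * ρ - (ρ - r) + 3 * ρ := by ring
          rw [e]
          exact (((DI.MP.mul_right hal1 vρ).add (DI.MP.mul_right hal vρ)).sub h7).add
            (DI.MP.mul_right m3 vρ)
  · refine main γ rfl ?_
    exact in_fixq hX hD1 hS hLv hA hq ⟨N, by ring⟩ hl30
      (two_q hq h43 (((in_ord hD1 hS hLv hA).2 hal).imp (mem_q hq ⟨N, by ring⟩)
        (mem_q hq ⟨N, by ring⟩)))

/-- THE FIELD `ℚ(i)`. -/
theorem in_pr4 (hX : S_XOm) (hR1 : S_R1) (hD1 : S_D1) (hE1 : DS.S_E1) (hE10 : S_E10) [SqN 1 0]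
    {P : Ideal ZZ} (hS : S3 1 0 P) {τ : Gal(Om/ℚ)} (hτ : τ ∈ GK 1 0) (hi : τ ∈ P.inertia Gal(Om/ℚ))
    {N : ℕ} (hN : Lv N) (h20 : 20 ∣ N) {a : Ideal (OO 1 0)} (hψ : Psi τ (3 * N) a) :
    Ray N a (⊤ : Ideal (OO 1 0)) := by
  have := hS.ab.1.1
  have hN0 := hN.pos
  obtain ⟨q, l, hq, hl, h32⟩ := (DS.bAux 1 0 (30 * N) (by positivity)).2 (by omega)
  have hl0 : 0 < l := by omega
  have hl30 : l.Coprime 30 := Nat.Coprime.coprime_dvd_right ⟨N, rfl⟩ hl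
  have h5N : 5 ∣ N := Dvd.dvd.trans (by norm_num) h20
  obtain ⟨a', ha', hray⟩ := up_lv (M := l) hE1 hτ hN0 hl0 h5N hψ
  have hLv : Lv (N * l) := lv_mul hN hl30 hl0
  have hNO : (N : OO 1 0) ∣ ((N * l : ℕ) : OO 1 0) := Nat.cast_dvd_cast ⟨l, rfl⟩
  obtain ⟨γ, hγ, rfl⟩ := DS.sGau a' ha'.ne
  obtain ⟨al, r, hA⟩ := in_aff hX hD1 hE10 hS.ab hi hLv (h20.mul_right l) hγ ha'
  obtain ⟨-, o2, o3, -⟩ := aO7 1 0 N hN0
  have main : ∀ (γ' : OO 1 0) (al' r' : Om), sp γ' = sp γ → AfM P (N * l) γ' al' r' → MP P (al' - 1) →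
      Ray N a (⊤ : Ideal (OO 1 0)) := by
    intro γ' al' r' hsp hA' hal'
    have h := in_fixq hX hD1 hS hLv hA' hq ⟨N, by ring⟩ hl30
      (three_q hq h32 (((in_ord hD1 hS hLv hA').1 hal').imp (mem_q hq ⟨N, by ring⟩)
        (mem_q hq ⟨N, by ring⟩)))
    refine o3 _ _ _ (o2 _ _ hray) ?_
    rw [← hsp]
    exact ray_pm (ne_of_sp hsp hγ) (h.imp hNO.trans hNO.trans)
  rcases (in_af hX hD1 hS hLv hA).2 with hal | hal
  · exact main γ al r rfl hA hal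
  · have hw := in_w hX hD1 hR1 (t := 0) hS.ab hLv
    have hW2 : toO (wI 1 0) ^ 2 = -1 := by
      rw [toO_wI, wO_sq]
      push_cast
      ring
    rw [hW2] at hw
    refine main (γ * wI 1 0) _ _ (sp_w γ) (hA.comp hS.ab hLv hw) ?_
    have e : al * (-1 : Om)⁻¹ - 1 = -(al + 1) := by
      rw [inv_neg, inv_one]
      ring
    rw [e]
    exact hal.neg

end Pool.Agent.DM
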